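import Mathlib

set_option autoImplicit false

/-!
# Countable weak pi-bases for balls of spaces with a 1-unconditional basis

The combination of finitely supported coefficient sequences is `Finsupp.linearCombination ℝ e`.
The key lemma `exists_good` finds, inside a given basic weakly open set of the ball, a finitely
supported vector whose admissible tails are all small for the given functionals.
-/

open Filter Topology

namespace Pool.Agent.helper34.PiBase

variable {X : Type} [NormedAddCommGroup X] [NormedSpace ℝ X]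

/-- synthesis of a finitely supported coefficient sequence -/
noncomputable abbrev E (e : ℕ → X) (a : ℕ →₀ ℝ) : X := Finsupp.linearCombination ℝ e a

/-- the 1-unconditionality hypothesis -/
def Unc (e : ℕ → X) : Prop :=
  ∀ (s : Finset ℕ) (a ε : ℕ → ℝ), (∀ n, ε n = 1 ∨ ε n = -1) →
          ‖∑ n ∈ s, (ε n * a n) • e n‖ ≤ ‖∑ n ∈ s, a n • e n‖

theorem E_eq_sum {e : ℕ → X} (a : ℕ →₀ ℝ) (s : Finset ℕ) (hs : a.support ⊆ s) :
    E e a = ∑ n ∈ s, a n • e n := by
  unfold E
  rw [Finsupp.linearCombination_apply]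
  exact Finsupp.sum_of_support_subset a hs (fun n v => v • e n) (by simp)

theorem norm_sign {e : ℕ → X} (hu : Unc e) (a b : ℕ →₀ ℝ) (h : ∀ n, |a n| = |b n|) :
    ‖E e a‖ ≤ ‖E e b‖ := by
  classical
  set s := a.support ∪ b.support
  rw [E_eq_sum a s Finset.subset_union_left, E_eq_sum b s Finset.subset_union_right]
  have := hu s (fun n => b n) (fun n => if a n = b n then 1 else -1)
    (by intro n; by_cases hn : a n = b n <;> simp [hn])
  refine le_trans (le_of_eq ?_) this
  congr 1
  refine Finset.sum_congr rfl (fun n _ => ?_)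
  by_cases hn : a n = b n
  · simp [hn]
  · have h1 : a n = - b n := by
      rcases abs_eq_abs.mp (h n) with h2 | h2
      · exact absurd h2 hn
      · exact h2
    simp only [hn, if_false]
    rw [h1]; ring_nf

/-- dropping coordinates does not increase the norm -/
theorem norm_drop {e : ℕ → X} (hu : Unc e) (a b : ℕ →₀ ℝ) (h : ∀ n, a n = b n ∨ a n = 0) :
    ‖E e a‖ ≤ ‖E e b‖ := by
  have h1 : E e a = (1/2 : ℝ) • (E e b + E e (2 • a - b)) := by
    unfold E
    rw [map_sub, map_nsmul]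
    module
  have h2 : ‖E e (2 • a - b)‖ ≤ ‖E e b‖ := by
    apply norm_sign hu
    intro n
    rcases h n with h3 | h3
    · simp [h3, two_mul]
    · simp [h3]
  rw [h1, norm_smul]
  have h3 : ‖(1/2 : ℝ)‖ = 1/2 := by norm_num
  rw [h3]
  have := norm_add_le (E e b) (E e (2 • a - b))
  linarith

/-- the weight seminorm -/
noncomputable def pw (w : ℕ → ℝ) (a : ℕ →₀ ℝ) : ℝ := a.sum (fun n v => w n * |v|)

theorem pw_eq_sum {w : ℕ → ℝ} (a : ℕ →₀ ℝ) (s : Finset ℕ) (hs : a.support ⊆ s) :
    pw w a = ∑ n ∈ s, w n * |a n| := by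
  unfold pw
  exact Finsupp.sum_of_support_subset a hs (fun n v => w n * |v|) (by simp)

theorem abs_apply_le {e : ℕ → X} (f : X →L[ℝ] ℝ) (a : ℕ →₀ ℝ) :
    |f (E e a)| ≤ pw (fun n => |f (e n)|) a := by
  rw [E_eq_sum a a.support (Finset.Subset.refl _), pw_eq_sum a a.support (Finset.Subset.refl _),
    map_sum]
  refine (Finset.abs_sum_le_sum_abs _ _).trans (le_of_eq ?_)
  refine Finset.sum_congr rfl (fun n _ => ?_)
  rw [map_smul, smul_eq_mul, abs_mul, mul_comm]

theorem pw_le {e : ℕ → X} (hu : Unc e) (f : X →L[ℝ] ℝ) (a : ℕ →₀ ℝ) :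
    pw (fun n => |f (e n)|) a ≤ ‖f‖ * ‖E e a‖ := by
  classical
  -- choose signs
  let c : ℕ →₀ ℝ := Finsupp.onFinset a.support (fun n => if 0 ≤ f (e n) then |a n| else -|a n|) (by
      intro n hn
      by_contra h
      apply hn
      simp only [Finsupp.mem_support_iff, not_not] at h
      simp [h])
  have hc : ∀ n, c n = if 0 ≤ f (e n) then |a n| else -|a n| := fun n => rfl
  have h1 : ‖E e c‖ ≤ ‖E e a‖ := by
    apply norm_sign hu
    intro n
    rw [hc n]
    split_ifs <;> simp
  have hsupp : c.support ⊆ a.support := Finsupp.support_onFinset_subset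
  have h2 : pw (fun n => |f (e n)|) a = f (E e c) := by
    rw [E_eq_sum c a.support hsupp, pw_eq_sum a a.support (Finset.Subset.refl _), map_sum]
    refine Finset.sum_congr rfl (fun n _ => ?_)
    rw [map_smul, smul_eq_mul, hc n]
    split_ifs with h3
    · rw [abs_of_nonneg h3]; ring
    · push Not at h3
      rw [abs_of_neg h3]; ring
  rw [h2]
  calc f (E e c) ≤ ‖f (E e c)‖ := Real.le_norm_self _
    _ ≤ ‖f‖ * ‖E e c‖ := f.le_opNorm _
    _ ≤ ‖f‖ * ‖E e a‖ := by gcongr

theorem pw_sum_weights {ι : Type*} (I : Finset ι) (w : ι → ℕ → ℝ) (a : ℕ →₀ ℝ) :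
    pw (fun n => ∑ i ∈ I, w i n) a = ∑ i ∈ I, pw (w i) a := by
  simp only [pw_eq_sum a a.support (Finset.Subset.refl _)]
  rw [Finset.sum_comm]
  refine Finset.sum_congr rfl (fun n _ => ?_)
  rw [Finset.sum_mul]

theorem pw_nonneg {w : ℕ → ℝ} (hw : ∀ n, 0 ≤ w n) (a : ℕ →₀ ℝ) : 0 ≤ pw w a := by
  rw [pw_eq_sum a a.support (Finset.Subset.refl _)]
  exact Finset.sum_nonneg (fun n _ => mul_nonneg (hw n) (abs_nonneg _))

theorem pw_smul {w : ℕ → ℝ} (t : ℝ) (a : ℕ →₀ ℝ) : pw w (t • a) = |t| * pw w a := by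
  rw [pw_eq_sum (t • a) a.support Finsupp.support_smul,
    pw_eq_sum a a.support (Finset.Subset.refl _), Finset.mul_sum]
  refine Finset.sum_congr rfl (fun n _ => ?_)
  simp only [Finsupp.smul_apply, smul_eq_mul, abs_mul]
  ring

/-- additivity on vectors with pairwise disjoint supports -/
theorem pw_combo {w : ℕ → ℝ} (a y z : ℕ →₀ ℝ)
    (h : ∀ n, |(a + (1/2 : ℝ) • (y - z)) n| = |a n| + (1/2) * |y n| + (1/2) * |z n|) :
    pw w (a + (1/2 : ℝ) • (y - z)) = pw w a + (1/2) * pw w y + (1/2) * pw w z := by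
  classical
  set s := (a + (1/2 : ℝ) • (y - z)).support ∪ a.support ∪ y.support ∪ z.support
  rw [pw_eq_sum (a + (1/2 : ℝ) • (y - z)) s (by intro n hn; simp only [s, Finset.mem_union]; tauto),
    pw_eq_sum a s (by intro n hn; simp only [s, Finset.mem_union]; tauto),
    pw_eq_sum y s (by intro n hn; simp only [s, Finset.mem_union]; tauto),
    pw_eq_sum z s (by intro n hn; simp only [s, Finset.mem_union]; tauto),
    Finset.mul_sum, Finset.mul_sum, ← Finset.sum_add_distrib, ← Finset.sum_add_distrib]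
  refine Finset.sum_congr rfl (fun n _ => ?_)
  rw [h n]; ring

/-- Key lemma.  Given a functional data `f i`, a nonempty set of finitely supported vectors in the
ball satisfying `|f i (E a) - c i| < δ`, there is such an `a` and `N, τ` such that every finitely
supported tail `z` beyond `N` with `‖a + z‖ ≤ 1 + τ` has small weight. -/
theorem exists_good {e : ℕ → X} (hu : Unc e) {ι : Type} (I : Finset ι) (f : ι → (X →L[ℝ] ℝ))
    (c : ι → ℝ) (δ η : ℝ) (hη : 0 < η)
    (a₀ : ℕ →₀ ℝ) (ha₀ : ‖E e a₀‖ ≤ 1) (ha₀' : ∀ i ∈ I, |f i (E e a₀) - c i| < δ) :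
    ∃ (a : ℕ →₀ ℝ) (N : ℕ) (τ : ℝ), ‖E e a‖ ≤ 1 ∧ (∀ i ∈ I, |f i (E e a) - c i| < δ) ∧ 0 < τ ∧
      (∀ n, N ≤ n → a n = 0) ∧
      ∀ z : ℕ →₀ ℝ, (∀ n < N, z n = 0) → ‖E e (a + z)‖ ≤ 1 + τ →
        pw (fun n => ∑ i ∈ I, |f i (e n)|) z ≤ η := by
  classical
  set w : ℕ → ℝ := fun n => ∑ i ∈ I, |f i (e n)| with hw
  have hwnn : ∀ n, 0 ≤ w n := fun n => Finset.sum_nonneg (fun i _ => abs_nonneg _)
  set C : ℝ := ∑ i ∈ I, ‖f i‖ with hC
  have hCnn : 0 ≤ C := Finset.sum_nonneg (fun i _ => norm_nonneg _)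
  have hpC : ∀ a : ℕ →₀ ℝ, ‖E e a‖ ≤ 1 → pw w a ≤ C := by
    intro a ha
    rw [hw, pw_sum_weights]
    refine Finset.sum_le_sum (fun i _ => (pw_le hu (f i) a).trans ?_)
    have := norm_nonneg (f i)
    nlinarith
  -- the supremum
  set S : Set ℝ := (fun a => pw w a) '' {a : ℕ →₀ ℝ | ‖E e a‖ ≤ 1 ∧ ∀ i ∈ I, |f i (E e a) - c i| < δ}
    with hS
  have hSne : S.Nonempty := ⟨_, a₀, ⟨ha₀, ha₀'⟩, rfl⟩
  have hSbdd : BddAbove S := by
    refine ⟨C, ?_⟩
    rintro _ ⟨a, ⟨ha, _⟩, rfl⟩
    exact hpC a ha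
  set σ := sSup S with hσ
  have hσC : σ ≤ C := csSup_le hSne (by rintro _ ⟨a, ⟨ha, _⟩, rfl⟩; exact hpC a ha)
  have hle : ∀ a : ℕ →₀ ℝ, ‖E e a‖ ≤ 1 → (∀ i ∈ I, |f i (E e a) - c i| < δ) → pw w a ≤ σ :=
    fun a h1 h2 => le_csSup hSbdd ⟨a, ⟨h1, h2⟩, rfl⟩
  obtain ⟨_, ⟨a, ⟨ha1, ha2⟩, rfl⟩, ha3⟩ : ∃ x ∈ S, σ - η / 2 < x :=
    exists_lt_of_lt_csSup hSne (by linarith)
  simp only at ha3
  -- margin
  obtain ⟨ρ, hρ, hρ2⟩ : ∃ ρ : ℝ, 0 < ρ ∧ ∀ i ∈ I, |f i (E e a) - c i| + ρ < δ := by
    rcases I.eq_empty_or_nonempty with h | h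
    · exact ⟨1, one_pos, by simp [h]⟩
    · obtain ⟨i₀, hi₀, hmin⟩ := I.exists_max_image (fun i => |f i (E e a) - c i|) h
      refine ⟨(δ - |f i₀ (E e a) - c i₀|) / 2, by linarith [ha2 i₀ hi₀], ?_⟩
      intro i hi
      have := hmin i hi
      have := ha2 i₀ hi₀
      linarith
  set M : ℕ := a.support.sup id + 1 with hM
  have hMa : ∀ n, M ≤ n → a n = 0 := by
    intro n hn
    by_contra h
    have : n ≤ a.support.sup id := Finset.le_sup (f := id) (Finsupp.mem_support_iff.mpr h)
    omega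
  set τ : ℝ := min (ρ / (2 * (C + 1))) (η / (4 * (C + 1))) with hτ
  have hτpos : 0 < τ := by
    rw [hτ]; apply lt_min <;> positivity
  have hτ1 : τ * C < ρ := by
    have h1 : τ ≤ ρ / (2 * (C + 1)) := min_le_left _ _
    have h2 : τ * (2 * (C + 1)) ≤ ρ := by
      rwa [le_div_iff₀ (by positivity)] at h1
    nlinarith
  have hτ1' : τ * C ≤ ρ / 2 := by
    have h1 : τ ≤ ρ / (2 * (C + 1)) := min_le_left _ _
    have h2 : τ * (2 * (C + 1)) ≤ ρ := by
      rwa [le_div_iff₀ (by positivity)] at h1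
    nlinarith
  have hτ2 : τ * C < η / 2 := by
    have h1 : τ ≤ η / (4 * (C + 1)) := min_le_right _ _
    have h2 : τ * (4 * (C + 1)) ≤ η := by
      rwa [le_div_iff₀ (by positivity)] at h1
    nlinarith
  by_contra hcon
  push Not at hcon
  -- for every N ≥ M a bad tail
  have hbad : ∀ N : ℕ, M ≤ N → ∃ z : ℕ →₀ ℝ, (∀ n < N, z n = 0) ∧ ‖E e (a + z)‖ ≤ 1 + τ ∧
      η < pw w z := by
    intro N hN
    exact hcon a N τ ha1 ha2 hτpos (fun n hn => hMa n (hN.trans hn))
  choose! z hz1 hz2 hz3 using hbad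
  -- bounded vectors of values
  let v : ℕ → (I → ℝ) := fun k i => f i.1 (E e (z (M + k)))
  have hbound : ∀ k, ‖v k‖ ≤ C * (2 + τ) := by
    intro k
    rw [pi_norm_le_iff_of_nonneg (by positivity)]
    intro i
    have h1 : ‖E e (z (M + k))‖ ≤ 2 + τ := by
      have h2 : E e (z (M + k)) = E e (a + z (M + k)) - E e a := by
        unfold E; rw [map_add]; abel
      rw [h2]
      have := norm_sub_le (E e (a + z (M + k))) (E e a)
      have := hz2 (M + k) (by omega)
      linarith
    calc ‖v k i‖ ≤ ‖f i.1‖ * ‖E e (z (M + k))‖ := (f i.1).le_opNorm _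
      _ ≤ C * (2 + τ) := by
        gcongr
        exact Finset.single_le_sum (f := fun i => ‖f i‖) (fun i _ => norm_nonneg _) i.2
  obtain ⟨vlim, _, φ, hφ, hlim⟩ := tendsto_subseq_of_bounded (Metric.isBounded_closedBall (x := (0 : I → ℝ)) (r := C * (2 + τ)))
    (x := v) (fun k => by simpa using hbound k)
  obtain ⟨K, hK⟩ := (Metric.tendsto_atTop.mp hlim) (ρ / 2) (by positivity)
  set z1 := z (M + φ K) with hz1def
  set L : ℕ := z1.support.sup id + 1 with hL
  have hLz : ∀ n, L ≤ n → z1 n = 0 := by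
    intro n hn
    by_contra h
    have : n ≤ z1.support.sup id := Finset.le_sup (f := id) (Finsupp.mem_support_iff.mpr h)
    omega
  set k2 := max K L with hk2
  set z2 := z (M + φ k2) with hz2def
  have hk2L : L ≤ φ k2 := (le_max_right K L).trans (hφ.id_le k2)
  have hdiff : ∀ i ∈ I, |f i (E e z1) - f i (E e z2)| < ρ := by
    intro i hi
    have h1 := hK K le_rfl
    have h2 := hK k2 (le_max_left _ _)
    have h3 : dist (v (φ K)) (v (φ k2)) < ρ := by
      calc dist (v (φ K)) (v (φ k2)) ≤ dist (v (φ K)) vlim + dist (v (φ k2)) vlim :=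
            dist_triangle_right _ _ _
        _ < ρ := by simp only [Function.comp] at h1 h2; linarith
    have h4 := (dist_le_pi_dist (v (φ K)) (v (φ k2)) ⟨i, hi⟩).trans_lt h3
    simpa [v, Real.dist_eq] using h4
  -- disjointness facts
  have hz1low : ∀ n < M, z1 n = 0 := fun n hn => hz1 (M + φ K) (by omega) n (by omega)
  have hz2low : ∀ n < M + L, z2 n = 0 := fun n hn => hz1 (M + φ k2) (by omega) n (by omega)
  have hcase : ∀ n, (z1 n = 0 ∧ z2 n = 0) ∨ (a n = 0 ∧ z2 n = 0) ∨ (a n = 0 ∧ z1 n = 0) := by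
    intro n
    rcases lt_or_ge n M with h | h
    · left; exact ⟨hz1low n h, hz2low n (by omega)⟩
    · rcases lt_or_ge n L with h' | h'
      · right; left; exact ⟨hMa n h, hz2low n (by omega)⟩
      · right; right; exact ⟨hMa n h, hLz n h'⟩
  set b : ℕ →₀ ℝ := a + (1/2 : ℝ) • (z1 - z2) with hb
  have hbw : pw w b = pw w a + (1/2) * pw w z1 + (1/2) * pw w z2 := by
    apply pw_combo
    intro n
    simp only [Finsupp.add_apply, Finsupp.smul_apply, Finsupp.sub_apply, smul_eq_mul]
    rcases hcase n with ⟨h1, h2⟩ | ⟨h1, h2⟩ | ⟨h1, h2⟩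
    · simp [h1, h2]
    · simp [h1, h2, abs_mul]
    · simp [h1, h2, abs_mul]
  have hnb : ‖E e b‖ ≤ 1 + τ := by
    have h1 : E e b = (1/2 : ℝ) • (E e (a + z1) + E e (a - z2)) := by
      rw [hb]; unfold E
      simp only [map_add, map_sub, map_smul]
      module
    have h2 : ‖E e (a - z2)‖ ≤ ‖E e (a + z2)‖ := by
      apply norm_sign hu
      intro n
      simp only [Finsupp.sub_apply, Finsupp.add_apply]
      rcases hcase n with ⟨_, h2⟩ | ⟨h1, h2⟩ | ⟨h1, _⟩
      · simp [h2]
      · simp [h1, h2]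
      · simp [h1]
    have h3 := hz2 (M + φ K) (by omega)
    have h4 := hz2 (M + φ k2) (by omega)
    rw [h1, norm_smul]
    have h5 : ‖(1/2 : ℝ)‖ = 1/2 := by norm_num
    rw [h5]
    have := norm_add_le (E e (a + z1)) (E e (a - z2))
    rw [← hz1def] at h3
    rw [← hz2def] at h4
    linarith
  set b' : ℕ →₀ ℝ := (1 / (1 + τ)) • b with hb'
  have hEb' : E e b' = (1 / (1 + τ)) • E e b := by
    rw [hb']; unfold E; rw [map_smul]
  have hb'1 : ‖E e b'‖ ≤ 1 := by
    rw [hEb', norm_smul, Real.norm_eq_abs, abs_of_pos (by positivity)]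
    rw [div_mul_eq_mul_div, one_mul, div_le_one (by positivity)]
    exact hnb
  have hfa : ∀ i ∈ I, |f i (E e a)| ≤ C := by
    intro i hi
    calc |f i (E e a)| = ‖f i (E e a)‖ := (Real.norm_eq_abs _).symm
      _ ≤ ‖f i‖ * ‖E e a‖ := (f i).le_opNorm _
      _ ≤ ‖f i‖ * 1 := by gcongr
      _ ≤ C := by
        rw [mul_one]
        exact Finset.single_le_sum (f := fun i => ‖f i‖) (fun i _ => norm_nonneg _) hi
  have hb'2 : ∀ i ∈ I, |f i (E e b') - c i| < δ := by
    intro i hi
    have h1 : f i (E e b') - f i (E e a) =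
        (1 / (1 + τ)) * ((1/2) * (f i (E e z1) - f i (E e z2)) - τ * f i (E e a)) := by
      rw [hEb', map_smul, smul_eq_mul]
      have : f i (E e b) = f i (E e a) + (1/2) * (f i (E e z1) - f i (E e z2)) := by
        rw [hb]; unfold E
        simp only [map_add, map_sub, map_smul, smul_eq_mul]
      rw [this]
      field_simp
      ring
    have h2 : |f i (E e b') - f i (E e a)| < ρ := by
      rw [h1, abs_mul, abs_of_pos (show 0 < 1 / (1 + τ) by positivity)]
      have h3 : |(1/2) * (f i (E e z1) - f i (E e z2)) - τ * f i (E e a)| < ρ := by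
        have h4 := hdiff i hi
        have h5 := hfa i hi
        have h6 : |τ * f i (E e a)| ≤ τ * C := by
          rw [abs_mul, abs_of_pos hτpos]; gcongr
        have h7 : |(1/2) * (f i (E e z1) - f i (E e z2))| < ρ / 2 := by
          rw [abs_mul, abs_of_pos (by norm_num : (0:ℝ) < 1/2)]; linarith
        calc _ ≤ |(1/2) * (f i (E e z1) - f i (E e z2))| + |τ * f i (E e a)| := abs_sub _ _
          _ < ρ := by linarith
      have h8 : 1 / (1 + τ) ≤ 1 := by
        rw [div_le_one (by positivity)]; linarith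
      calc _ ≤ 1 * |(1/2) * (f i (E e z1) - f i (E e z2)) - τ * f i (E e a)| := by gcongr
        _ < ρ := by rw [one_mul]; exact h3
    have h9 := hρ2 i hi
    calc |f i (E e b') - c i| ≤ |f i (E e b') - f i (E e a)| + |f i (E e a) - c i| :=
          abs_sub_le _ _ _
      _ < δ := by linarith
  have hfin := hle b' hb'1 hb'2
  rw [hb', pw_smul, abs_of_pos (show 0 < 1 / (1 + τ) by positivity), hbw,
    div_mul_eq_mul_div, one_mul, div_le_iff₀ (by positivity)] at hfin
  have h3 := hz3 (M + φ K) (by omega)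
  have h4 := hz3 (M + φ k2) (by omega)
  rw [← hz1def] at h3
  rw [← hz2def] at h4
  have h10 : τ * σ ≤ τ * C := by gcongr
  linarith


section basis

variable {e : ℕ → X}

/-- partial sums have norm at most the norm of the sum -/
theorem norm_partial_le (hu : Unc e) {x : X} {c : ℕ → ℝ} (h : HasSum (fun n => c n • e n) x)
    (s : Finset ℕ) : ‖∑ n ∈ s, c n • e n‖ ≤ ‖x‖ := by
  classical
  have h1 : Tendsto (fun t : Finset ℕ => ‖∑ n ∈ t, c n • e n‖) atTop (𝓝 ‖x‖) :=
    (continuous_norm.tendsto _).comp h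
  refine ge_of_tendsto h1 ?_
  filter_upwards [eventually_ge_atTop s] with t ht
  have key := norm_drop hu (Finsupp.onFinset s (fun n => if n ∈ s then c n else 0)
      (by intro n hn; by_contra h; simp [h] at hn))
    (Finsupp.onFinset t (fun n => if n ∈ t then c n else 0)
      (by intro n hn; by_contra h; simp [h] at hn))
    (by
      intro n
      by_cases hn : n ∈ s
      · left
        simp [hn, ht hn]
      · right
        simp [hn])
  rw [E_eq_sum _ s Finsupp.support_onFinset_subset, E_eq_sum _ t Finsupp.support_onFinset_subset]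
    at key
  simp only [Finsupp.onFinset_apply] at key
  rw [Finset.sum_congr rfl (g := fun n => c n • e n) (fun n hn => by simp [hn]),
    Finset.sum_congr (s₁ := t) rfl (g := fun n => c n • e n) (fun n hn => by simp [hn])] at key
  exact key

/-- coefficient functional as a plain function -/
noncomputable def coef (hb : ∀ x : X, ∃! a : ℕ → ℝ, HasSum (fun n => a n • e n) x) (x : X) :
    ℕ → ℝ := (hb x).choose

theorem coef_hasSum (hb : ∀ x : X, ∃! a : ℕ → ℝ, HasSum (fun n => a n • e n) x) (x : X) :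
    HasSum (fun n => coef hb x n • e n) x := (hb x).choose_spec.1

theorem coef_unique (hb : ∀ x : X, ∃! a : ℕ → ℝ, HasSum (fun n => a n • e n) x) (x : X)
    {a : ℕ → ℝ} (ha : HasSum (fun n => a n • e n) x) : a = coef hb x :=
  (hb x).choose_spec.2 a ha

theorem coef_E (hb : ∀ x : X, ∃! a : ℕ → ℝ, HasSum (fun n => a n • e n) x) (a : ℕ →₀ ℝ) :
    coef hb (E e a) = a := by
  symm
  apply coef_unique
  rw [E_eq_sum a a.support (Finset.Subset.refl _)]
  apply hasSum_sum_of_ne_finset_zero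
  intro n hn
  rw [Finsupp.notMem_support_iff] at hn
  simp [hn]

theorem e_ne_zero (hb : ∀ x : X, ∃! a : ℕ → ℝ, HasSum (fun n => a n • e n) x) (n : ℕ) :
    e n ≠ 0 := by
  intro h0
  have h1 := coef_E hb (Finsupp.single n 1)
  have h2 := coef_E hb (0 : ℕ →₀ ℝ)
  have h3 : E e (Finsupp.single n (1:ℝ)) = E e (0 : ℕ →₀ ℝ) := by
    unfold E; simp [h0]
  rw [h3, h2] at h1
  have h4 := congrFun h1 n
  simp at h4

/-- coefficient functional as a continuous linear functional -/
noncomputable def coefL (hb : ∀ x : X, ∃! a : ℕ → ℝ, HasSum (fun n => a n • e n) x)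
    (hu : Unc e) (n : ℕ) : X →L[ℝ] ℝ :=
  LinearMap.mkContinuous
    { toFun := fun x => coef hb x n
      map_add' := by
        intro x y
        have h := (coef_hasSum hb x).add (coef_hasSum hb y)
        simp only [← add_smul] at h
        have h2 := coef_unique hb (x + y) h
        exact (congrFun h2 n).symm
      map_smul' := by
        intro t x
        have h := (coef_hasSum hb x).const_smul t
        simp only [← mul_smul] at h
        have h2 := coef_unique hb (t • x) h
        exact (congrFun h2 n).symm } (‖e n‖⁻¹) (by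
      intro x
      have h := norm_partial_le hu (coef_hasSum hb x) {n}
      rw [Finset.sum_singleton, norm_smul] at h
      have hpos : 0 < ‖e n‖ := norm_pos_iff.mpr (e_ne_zero hb n)
      change ‖coef hb x n‖ ≤ _
      rw [inv_mul_eq_div, le_div_iff₀ hpos]
      exact h)

theorem coefL_apply (hb : ∀ x : X, ∃! a : ℕ → ℝ, HasSum (fun n => a n • e n) x)
    (hu : Unc e) (n : ℕ) (x : X) : coefL hb hu n x = coef hb x n := rfl

/-- truncation of the coefficient sequence to a finite set -/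
noncomputable def trunc (c : ℕ → ℝ) (s : Finset ℕ) : ℕ →₀ ℝ :=
  Finsupp.onFinset s (fun n => if n ∈ s then c n else 0)
      (by intro n hn; by_contra h; simp [h] at hn)

theorem trunc_apply (c : ℕ → ℝ) (s : Finset ℕ) (n : ℕ) :
    trunc c s n = if n ∈ s then c n else 0 := rfl

theorem E_trunc (c : ℕ → ℝ) (s : Finset ℕ) : E e (trunc c s) = ∑ n ∈ s, c n • e n := by
  rw [E_eq_sum (trunc c s) s Finsupp.support_onFinset_subset]
  exact Finset.sum_congr rfl (fun n hn => by simp [trunc_apply, hn])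

/-- The coordinatewise box. -/
def Box (cf : X → ℕ → ℝ) (N : ℕ) (q : ℕ → ℝ) (r : ℝ) : Set X := {x | ∀ n < N, |cf x n - q n| < r}

/-- Main lemma: every nonempty basic weakly open subset of the ball contains a nonempty
coordinatewise box. -/
theorem exists_box (hb : ∀ x : X, ∃! a : ℕ → ℝ, HasSum (fun n => a n • e n) x) (hu : Unc e)
    {ι : Type} (I : Finset ι) (f : ι → (X →L[ℝ] ℝ)) (x₀ : X) (hx₀ : ‖x₀‖ ≤ 1) (ε : ℝ)
    (hε : 0 < ε) :
    ∃ (a : ℕ →₀ ℝ) (N : ℕ) (r : ℝ), ‖E e a‖ ≤ 1 ∧ 0 < r ∧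
      ∀ y : X, ‖y‖ ≤ 1 → (∀ n < N, |coef hb y n - a n| < r) → ∀ i ∈ I, |f i (y - x₀)| < ε := by
  classical
  -- a finitely supported starting vector
  have hsum := coef_hasSum hb x₀
  obtain ⟨s, hs⟩ : ∃ s : Finset ℕ, ∀ i ∈ I, |f i (E e (trunc (coef hb x₀) s)) - f i x₀| < ε / 2 := by
    have h1 : ∀ i ∈ I, ∀ᶠ s : Finset ℕ in atTop,
        |f i (E e (trunc (coef hb x₀) s)) - f i x₀| < ε / 2 := by
      intro i _
      have h2 : Tendsto (fun s : Finset ℕ => f i (E e (trunc (coef hb x₀) s))) atTop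
          (𝓝 (f i x₀)) := by
        simp only [E_trunc]
        exact ((f i).continuous.tendsto _).comp hsum
      have h3 := Metric.tendsto_nhds.mp h2 (ε / 2) (by positivity)
      simpa [Real.dist_eq] using h3
    have h2 := (Filter.eventually_all_finset I).mpr h1
    exact h2.exists
  have hstart : ‖E e (trunc (coef hb x₀) s)‖ ≤ 1 := by
    rw [E_trunc]; exact (norm_partial_le hu hsum s).trans hx₀
  obtain ⟨a, N, τ, ha1, ha2, hτ, haN, htail⟩ := exists_good hu I f (fun i => f i x₀) (ε / 2) (ε / 4)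
    (by positivity) (trunc (coef hb x₀) s) hstart hs
  set C : ℝ := ∑ i ∈ I, ‖f i‖ with hC
  have hCnn : 0 ≤ C := Finset.sum_nonneg (fun i _ => norm_nonneg _)
  set T : ℝ := ∑ n ∈ Finset.range N, ‖e n‖ with hT
  have hTnn : 0 ≤ T := Finset.sum_nonneg (fun i _ => norm_nonneg _)
  set r : ℝ := min (τ / (T + 1)) (ε / (8 * (C + 1) * (T + 1))) with hr
  have hrpos : 0 < r := by rw [hr]; apply lt_min <;> positivity
  have hr1 : r * T ≤ τ := by
    have h1 : r ≤ τ / (T + 1) := min_le_left _ _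
    rw [le_div_iff₀ (by positivity)] at h1
    nlinarith
  have hr2 : C * (r * T) ≤ ε / 8 := by
    have h1 : r ≤ ε / (8 * (C + 1) * (T + 1)) := min_le_right _ _
    rw [le_div_iff₀ (by positivity)] at h1
    have h2 : 0 ≤ r * T := by positivity
    have h3 : 0 ≤ r * C := by positivity
    nlinarith
  refine ⟨a, N, r, ha1, hrpos, ?_⟩
  intro y hy hclose i hi
  set c := coef hb y with hc
  have hysum : HasSum (fun n => c n • e n) y := coef_hasSum hb y
  -- head part
  set b : ℕ →₀ ℝ := trunc c (Finset.range N) with hbdef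
  have hhead : ‖E e b - E e a‖ ≤ r * T := by
    have h1 : E e b - E e a = ∑ n ∈ Finset.range N, (c n - a n) • e n := by
      rw [hbdef, E_trunc, E_eq_sum a (Finset.range N) (by
        intro n hn
        rw [Finset.mem_range]
        by_contra h
        exact (Finsupp.mem_support_iff.mp hn) (haN n (not_lt.mp h))), ← Finset.sum_sub_distrib]
      exact Finset.sum_congr rfl (fun n _ => by rw [sub_smul])
    rw [h1, hT, Finset.mul_sum]
    refine (norm_sum_le _ _).trans (Finset.sum_le_sum (fun n hn => ?_))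
    rw [norm_smul, Real.norm_eq_abs]
    have := (hclose n (Finset.mem_range.mp hn)).le
    gcongr
  -- for each large L
  have hL : ∀ᶠ t : Finset ℕ in atTop, |f i (∑ n ∈ t, c n • e n) - f i x₀| ≤
      |f i (E e a) - f i x₀| + ε / 8 + ε / 4 := by
    filter_upwards [eventually_ge_atTop (Finset.range N)] with t ht
    set z : ℕ →₀ ℝ := trunc c (t \ Finset.range N) with hz
    have hbz : b + z = trunc c t := by
      ext n
      simp only [hbdef, hz, Finsupp.add_apply, trunc_apply, Finset.mem_sdiff]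
      by_cases h1 : n ∈ Finset.range N
      · simp [h1, ht h1]
      · simp [h1]
    have hzlow : ∀ n < N, z n = 0 := by
      intro n hn
      simp [hz, trunc_apply, hn]
    have h1 : ‖E e (a + z)‖ ≤ 1 + τ := by
      have h2 : E e (a + z) = E e (b + z) - (E e b - E e a) := by
        unfold E; simp only [map_add]; abel
      have h3 : ‖E e (b + z)‖ ≤ 1 := by
        rw [hbz, E_trunc]
        exact (norm_partial_le hu hysum t).trans hy
      rw [h2]
      calc _ ≤ ‖E e (b + z)‖ + ‖E e b - E e a‖ := norm_sub_le _ _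
        _ ≤ 1 + τ := by linarith
    have h4 := htail z hzlow h1
    have h5 : |f i (E e z)| ≤ ε / 4 := by
      refine (abs_apply_le (f i) z).trans (le_trans ?_ h4)
      rw [pw_sum_weights]
      exact Finset.single_le_sum (f := fun i => pw (fun n => |f i (e n)|) z)
        (fun j _ => pw_nonneg (fun n => abs_nonneg _) z) hi
    have h6 : f i (∑ n ∈ t, c n • e n) - f i x₀ =
        (f i (E e a) - f i x₀) + f i (E e b - E e a) + f i (E e z) := by
      rw [← E_trunc, ← hbz]
      unfold E; simp only [map_add, map_sub]; ring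
    rw [h6]
    have h7 : |f i (E e b - E e a)| ≤ ε / 8 := by
      calc |f i (E e b - E e a)| = ‖f i (E e b - E e a)‖ := (Real.norm_eq_abs _).symm
        _ ≤ ‖f i‖ * ‖E e b - E e a‖ := (f i).le_opNorm _
        _ ≤ C * (r * T) := by
          gcongr
          exact Finset.single_le_sum (f := fun i => ‖f i‖) (fun i _ => norm_nonneg _) hi
        _ ≤ ε / 8 := hr2
    calc _ ≤ |(f i (E e a) - f i x₀) + f i (E e b - E e a)| + |f i (E e z)| := abs_add_le _ _
      _ ≤ |f i (E e a) - f i x₀| + |f i (E e b - E e a)| + |f i (E e z)| := by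
        gcongr; exact abs_add_le _ _
      _ ≤ _ := by linarith
  have hlim : Tendsto (fun t : Finset ℕ => |f i (∑ n ∈ t, c n • e n) - f i x₀|) atTop
      (𝓝 |f i y - f i x₀|) := by
    have h1 : Tendsto (fun t : Finset ℕ => f i (∑ n ∈ t, c n • e n)) atTop (𝓝 (f i y)) :=
      ((f i).continuous.tendsto _).comp hysum
    exact (h1.sub_const _).abs
  have hfin := le_of_tendsto hlim hL
  rw [map_sub]
  have := ha2 i hi
  linarith

end basis

end Pool.Agent.helper34.PiBase
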