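import Pool.Agent.helper34.ToeplitzDefs

set_option autoImplicit false
set_option linter.unusedSectionVars false

/-!
# Fourier analysis of `ℂⁿ`-valued square integrable functions on the circle
-/

open MeasureTheory AddCircle Complex Filter Topology
open scoped ENNReal

namespace Pool.Agent.helper34.BT

variable {E : Type*} [NormedAddCommGroup E] [InnerProductSpace ℂ E] [CompleteSpace E]

/-- bounded measurable matrix function as an element of `LinfM`. -/
noncomputable def toLinf (F : UnitAddCircle → Mn E) (hF : MemLp F ∞ μ) : LinfM E := hF.toLp F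

theorem coeFn_toLinf (F : UnitAddCircle → Mn E) (hF : MemLp F ∞ μ) :
    toLinf F hF =ᵐ[μ] F := MemLp.coeFn_toLp hF

theorem memLp_of_continuous {F : UnitAddCircle → Mn E} (hF : Continuous F) : MemLp F ∞ μ := by
  obtain ⟨C, hC⟩ := isCompact_univ.exists_bound_of_continuousOn hF.continuousOn
  exact memLp_top_of_bound hF.aestronglyMeasurable C (Filter.Eventually.of_forall fun t => hC t trivial)

/-- multiplication by a continuous matrix function -/
noncomputable def mulC (F : UnitAddCircle → Mn E) (hF : Continuous F) : L2 E →L[ℂ] L2 E :=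
  mulOp (toLinf F (memLp_of_continuous hF))

theorem coeFn_mulC (F : UnitAddCircle → Mn E) (hF : Continuous F) (f : L2 E) :
    mulC F hF f =ᵐ[μ] fun t => F t (f t) := by
  filter_upwards [coeFn_mulOp (toLinf F (memLp_of_continuous hF)) f,
    coeFn_toLinf F (memLp_of_continuous hF)] with t h1 h2
  rw [mulC, h1, h2]

/-- multiplication by `z ^ m` -/
noncomputable def Z (m : ℤ) : L2 E →L[ℂ] L2 E :=
  mulC (fun t => fourier m t • (1 : Mn E)) (by fun_prop)

theorem coeFn_Z (m : ℤ) (f : L2 E) : Z m f =ᵐ[μ] fun t => fourier m t • f t := by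
  filter_upwards [coeFn_mulC (fun t => fourier m t • (1 : Mn E)) (by fun_prop) f] with t h1
  rw [Z, h1]
  simp

theorem coef_Z (m k : ℤ) (f : L2 E) : coef k (Z m f) = coef (k - m) f := by
  rw [coef_apply, coef_apply, fourierCoeff_congr_ae (coeFn_Z m f)]
  unfold fourierCoeff
  congr 1
  funext t
  rw [smul_smul, ← fourier_add, show -k + m = -(k - m) by ring]

theorem mulOp_Z (Φ : LinfM E) (m : ℤ) (f : L2 E) : mulOp Φ (Z m f) = Z m (mulOp Φ f) := by
  apply Lp.ext
  filter_upwards [coeFn_mulOp Φ (Z m f), coeFn_mulOp Φ f, coeFn_Z m f, coeFn_Z m (mulOp Φ f)]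
    with t h1 h2 h3 h4
  rw [h1, h3, h4, h2, map_smul]

theorem Z_zero (f : L2 E) : Z 0 f = f := by
  apply Lp.ext
  filter_upwards [coeFn_Z 0 f] with t h1
  rw [h1, fourier_zero, one_smul]

theorem Z_add (m k : ℤ) (f : L2 E) : Z (m + k) f = Z m (Z k f) := by
  apply Lp.ext
  filter_upwards [coeFn_Z (m + k) f, coeFn_Z k f, coeFn_Z m (Z k f)] with t h1 h2 h3
  rw [h1, h3, h2, smul_smul, ← fourier_add]

theorem norm_Z (m : ℤ) (f : L2 E) : ‖Z m f‖ = ‖f‖ := by
  rw [Lp.norm_def, Lp.norm_def]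
  congr 1
  apply eLpNorm_congr_norm_ae
  filter_upwards [coeFn_Z m f] with t h1
  rw [h1, norm_smul, fourier_apply, Circle.norm_coe, one_mul]

theorem inner_mulOp (Φ : LinfM E) (f g : L2 E) :
    inner ℂ (mulOp Φ f) g = inner ℂ f (mulOp (star Φ) g) := by
  rw [L2.inner_def, L2.inner_def]
  apply integral_congr_ae
  filter_upwards [coeFn_mulOp Φ f, coeFn_mulOp (star Φ) g, Lp.coeFn_star Φ] with t h1 h2 h3
  rw [h1, h2, h3, Pi.star_apply, ContinuousLinearMap.star_eq_adjoint,
    ContinuousLinearMap.adjoint_inner_right]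

theorem inner_Z (m : ℤ) (f g : L2 E) : inner ℂ (Z m f) g = inner ℂ f (Z (-m) g) := by
  rw [L2.inner_def, L2.inner_def]
  apply integral_congr_ae
  filter_upwards [coeFn_Z m f, coeFn_Z (-m) g] with t h1 h2
  rw [h1, h2, inner_smul_left, inner_smul_right, fourier_neg]

/-- the monomial `z ^ k e` -/
noncomputable def mon (k : ℤ) (e : E) : L2 E :=
  MemLp.toLp (fun t => fourier k t • e) (by
    apply MemLp.of_bound (C := ‖e‖)
    · exact (Continuous.aestronglyMeasurable (by fun_prop))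
    · exact Filter.Eventually.of_forall fun t => by
        rw [norm_smul, fourier_apply, Circle.norm_coe, one_mul])

theorem coeFn_mon (k : ℤ) (e : E) : mon k e =ᵐ[μ] fun t => fourier k t • e :=
  MemLp.coeFn_toLp _

theorem coef_mon (k m : ℤ) (e : E) : coef m (mon k e) = if m = k then e else 0 := by
  rw [coef_apply, fourierCoeff_congr_ae (coeFn_mon k e)]
  have h1 : fourierCoeff (fun t : UnitAddCircle => fourier k t • e) m =
      (fourierCoeff (fourier k : UnitAddCircle → ℂ) m) • e := by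
    unfold fourierCoeff
    simp_rw [← smul_assoc]
    rw [integral_smul_const]
  rw [h1, fourierCoeff_fourier]
  by_cases h : m = k
  · subst h; simp
  · simp [h]

theorem inner_mon (k : ℤ) (e : E) (g : L2 E) : inner ℂ (mon k e) g = inner ℂ e (coef k g) := by
  rw [L2.inner_def, coef_apply]
  unfold fourierCoeff
  rw [← integral_inner ((integrable_L2 g).fourier_smul (-k))]
  apply integral_congr_ae
  filter_upwards [coeFn_mon k e] with t h1
  rw [h1, inner_smul_left, inner_smul_right, fourier_neg]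

/-- coordinate functions -/
noncomputable def comp (v : E) (f : L2 E) : Lp ℂ 2 μ :=
  (innerSL ℂ v : E →L[ℂ] ℂ).compLp f

theorem coeFn_comp (v : E) (f : L2 E) : comp v f =ᵐ[μ] fun t => inner ℂ v (f t) := by
  filter_upwards [ContinuousLinearMap.coeFn_compLp (innerSL ℂ v : E →L[ℂ] ℂ) f] with t h1
  rw [comp, h1]
  rfl

theorem fourierCoeff_comp (v : E) (f : L2 E) (k : ℤ) :
    fourierCoeff (comp v f : UnitAddCircle → ℂ) k = inner ℂ v (coef k f) := by
  rw [fourierCoeff_congr_ae (coeFn_comp v f), coef_apply]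
  unfold fourierCoeff
  have := (innerSL ℂ v : E →L[ℂ] ℂ).integral_comp_comm
    ((integrable_L2 f).fourier_smul (-k))
  refine Eq.trans ?_ this
  congr 1
  funext t
  simp

theorem norm_sq_eq (f : L2 E) : ‖f‖ ^ 2 = ∫ t, ‖f t‖ ^ 2 ∂μ := by
  have h := L2.inner_def (𝕜 := ℂ) f f
  have h2 : ((‖f‖ ^ 2 : ℝ) : ℂ) = ∫ t, ((‖f t‖ ^ 2 : ℝ) : ℂ) ∂μ := by
    rw [inner_self_eq_norm_sq_to_K] at h
    push_cast
    simp only [inner_self_eq_norm_sq_to_K] at h
    exact h
  rw [integral_complex_ofReal] at h2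
  exact_mod_cast h2

/-- Parseval for vector-valued functions -/
theorem hasSum_coef [FiniteDimensional ℂ E] (f : L2 E) :
    HasSum (fun k : ℤ => ‖coef k f‖ ^ 2) (‖f‖ ^ 2) := by
  set b := stdOrthonormalBasis ℂ E with hb
  have h1 : ∀ i, HasSum (fun k : ℤ => ‖(inner ℂ (b i) (coef k f) : ℂ)‖ ^ 2)
      (∫ t, ‖(inner ℂ (b i) (f t) : ℂ)‖ ^ 2 ∂μ) := by
    intro i
    have h2 := hasSum_sq_fourierCoeff (comp (b i) f)
    simp only [fourierCoeff_comp] at h2
    have h3 : ∫ t, ‖comp (b i) f t‖ ^ 2 ∂μ = ∫ t, ‖(inner ℂ (b i) (f t) : ℂ)‖ ^ 2 ∂μ := by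
      apply integral_congr_ae
      filter_upwards [coeFn_comp (b i) f] with t h
      rw [h]
    rw [← h3]
    exact h2
  have h4 := hasSum_sum (s := Finset.univ) (fun i _ => h1 i)
  have h5 : ∑ i, ∫ t, ‖(inner ℂ (b i) (f t) : ℂ)‖ ^ 2 ∂μ = ‖f‖ ^ 2 := by
    rw [norm_sq_eq, ← integral_finsetSum]
    · congr 1
      funext t
      exact b.sum_sq_norm_inner_right (f t)
    · intro i _
      have h6 : Integrable (fun t => ‖comp (b i) f t‖ ^ 2) μ :=
        (memLp_two_iff_integrable_sq_norm (Lp.aestronglyMeasurable _)).mp (Lp.memLp (comp (b i) f))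
      refine h6.congr ?_
      filter_upwards [coeFn_comp (b i) f] with t h
      rw [h]
  rw [← h5]
  refine h4.congr_fun ?_
  intro k
  exact (b.sum_sq_norm_inner_right (coef k f)).symm

theorem coef_ext [FiniteDimensional ℂ E] {f g : L2 E} (h : ∀ k, coef k f = coef k g) : f = g := by
  have h1 := hasSum_coef (f - g)
  have h2 : (fun k : ℤ => ‖coef k (f - g)‖ ^ 2) = fun _ => 0 := by
    funext k
    rw [map_sub, h k, sub_self, norm_zero]
    norm_num
  rw [h2] at h1
  have h3 := h1.unique hasSum_zero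
  have h4 : ‖f - g‖ = 0 := by
    exact pow_eq_zero_iff (two_ne_zero) |>.mp h3
  exact sub_eq_zero.mp (norm_eq_zero.mp h4)

/-- the orthogonal projection on `H²` -/
noncomputable abbrev P : L2 E →L[ℂ] L2 E := (H2 E).starProjection

theorem mon_mem (k : ℤ) (hk : 0 ≤ k) (e : E) : mon k e ∈ H2 E := by
  rw [mem_H2]
  intro m hm
  rw [coef_mon, if_neg (by omega)]

theorem coef_P_neg (k : ℤ) (hk : k < 0) (g : L2 E) : coef k (P g) = 0 :=
  (mem_H2 _).mp (Submodule.starProjection_apply_mem (H2 E) g) k hk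

theorem coef_P_nonneg (k : ℤ) (hk : 0 ≤ k) (g : L2 E) : coef k (P g) = coef k g := by
  have h1 : ∀ e : E, inner ℂ e (coef k (g - P g)) = 0 := by
    intro e
    rw [← inner_mon]
    exact (Submodule.sub_starProjection_mem_orthogonal (K := H2 E) g) _ (mon_mem k hk e)
  have h2 := h1 (coef k (g - P g))
  rw [inner_self_eq_zero, map_sub] at h2
  exact (sub_eq_zero.mp h2).symm

/-- `∑_{k<0} ‖coef k g‖²` -/
noncomputable def N (g : L2 E) : ℝ := ∑' j : ℕ, ‖coef (-1 - (j : ℤ)) g‖ ^ 2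

theorem summable_N [FiniteDimensional ℂ E] (g : L2 E) : Summable (fun j : ℕ => ‖coef (-1 - (j : ℤ)) g‖ ^ 2) := by
  have := (hasSum_coef g).summable
  exact this.comp_injective (i := fun j : ℕ => (-1 - (j : ℤ))) (by intro a b h; simpa using h)

theorem N_eq [FiniteDimensional ℂ E] (g : L2 E) : ‖g‖ ^ 2 = ‖P g‖ ^ 2 + N g := by
  have h1 := hasSum_coef (g - P g)
  have h2 : HasSum (fun j : ℕ => ‖coef (-1 - (j : ℤ)) g‖ ^ 2) (‖g - P g‖ ^ 2) := by
    have hinj : Function.Injective (fun j : ℕ => (-1 - (j : ℤ))) := by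
      intro a b h; simpa using h
    rw [← hinj.hasSum_iff] at h1
    · refine h1.congr_fun ?_
      intro j
      simp only [Function.comp]
      rw [map_sub, coef_P_neg _ (by omega), sub_zero]
    · intro k hk
      have hk0 : 0 ≤ k := by
        by_contra h
        apply hk
        refine ⟨(-1 - k).toNat, ?_⟩
        simp only
        omega
      rw [map_sub, coef_P_nonneg k hk0, sub_self, norm_zero]
      norm_num
  have h3 : N g = ‖g - P g‖ ^ 2 := h2.tsum_eq
  rw [h3]
  have h4 : inner ℂ (P g) (g - P g) = 0 :=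
    (Submodule.sub_starProjection_mem_orthogonal (K := H2 E) g) _
      (Submodule.starProjection_apply_mem _ _)
  have h5 := norm_add_sq_eq_norm_sq_add_norm_sq_of_inner_eq_zero (𝕜 := ℂ) (P g) (g - P g) h4
  rw [add_sub_cancel] at h5
  nlinarith [h5]

theorem N_Z_one [FiniteDimensional ℂ E] (g : L2 E) : N g = ‖coef (-1) g‖ ^ 2 + N (Z 1 g) := by
  unfold N
  rw [(summable_N g).tsum_eq_zero_add]
  congr 1
  apply tsum_congr
  intro j
  rw [coef_Z, show (-1 - ((j + 1 : ℕ) : ℤ)) = -1 - (j : ℤ) - 1 by push_cast; ring]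

theorem tendsto_N (g : L2 E) : Tendsto (fun k : ℕ => N (Z (k : ℤ) g)) atTop (𝓝 0) := by
  have h := tendsto_sum_nat_add (fun j : ℕ => ‖coef (-1 - (j : ℤ)) g‖ ^ 2)
  refine h.congr (fun k => ?_)
  unfold N
  apply tsum_congr
  intro j
  rw [coef_Z, show (-1 - ((j + k : ℕ) : ℤ)) = -1 - (j : ℤ) - (k : ℤ) by push_cast; ring]

/-- weak convergence to zero of `z^k f`, `f ∈ H²` -/
theorem tendsto_inner_Z [FiniteDimensional ℂ E] (u f : L2 E) (hf : f ∈ H2 E) :
    Tendsto (fun k : ℕ => inner ℂ u (Z (k : ℤ) f)) atTop (𝓝 0) := by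
  have hf' : P f = f := Submodule.starProjection_eq_self_iff.mpr hf
  have h1 : ∀ k : ℕ, ‖inner ℂ u (Z (k : ℤ) f)‖ ≤ ‖P (Z (-(k : ℤ)) u)‖ * ‖f‖ := by
    intro k
    have h2 : inner ℂ u (Z (k : ℤ) f) = inner ℂ (P (Z (-(k : ℤ)) u)) f := by
      have h3 : inner ℂ (Z (-(k : ℤ)) u) f = inner ℂ (P (Z (-(k : ℤ)) u)) f := by
        rw [← sub_eq_zero, ← inner_sub_left]
        exact Submodule.starProjection_inner_eq_zero (K := H2 E) _ _ hf
      rw [← h3, inner_Z, neg_neg]
    rw [h2]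
    exact norm_inner_le_norm _ _
  have h2 : ∀ k : ℕ, ‖P (Z (-(k : ℤ)) u)‖ ^ 2 = ∑' j : ℕ, ‖coef ((j + k : ℕ) : ℤ) u‖ ^ 2 := by
    intro k
    have h3 := hasSum_coef (P (Z (-(k : ℤ)) u))
    have hinj : Function.Injective (fun j : ℕ => (j : ℤ)) := Nat.cast_injective
    rw [← hinj.hasSum_iff] at h3
    · rw [← h3.tsum_eq]
      apply tsum_congr
      intro j
      simp only [Function.comp]
      rw [coef_P_nonneg _ (by omega), coef_Z,
        show ((j + k : ℕ) : ℤ) = (j : ℤ) - -(k : ℤ) by push_cast; ring]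
    · intro m hm
      rw [coef_P_neg, norm_zero]
      · norm_num
      · by_contra h
        apply hm
        exact ⟨m.toNat, by simp; omega⟩
  have h3 : Tendsto (fun k : ℕ => ‖P (Z (-(k : ℤ)) u)‖ ^ 2) atTop (𝓝 0) := by
    simp only [h2]
    exact tendsto_sum_nat_add (fun j : ℕ => ‖coef (j : ℤ) u‖ ^ 2)
  have h4 : Tendsto (fun k : ℕ => ‖P (Z (-(k : ℤ)) u)‖) atTop (𝓝 0) := by
    have := h3.sqrt
    simpa using this
  have h5 := h4.mul_const ‖f‖
  rw [zero_mul] at h5
  exact squeeze_zero_norm h1 h5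

end Pool.Agent.helper34.BT
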