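import Pool.Agent.helper34.Toep1

set_option autoImplicit false
set_option linter.unusedSectionVars false

/-!
# The lurking isometry and the inductive factorization
-/

open MeasureTheory AddCircle Complex Filter Topology
open scoped ENNReal

namespace Pool.Agent.helper34.BT

variable {E : Type*} [NormedAddCommGroup E] [InnerProductSpace ℂ E] [CompleteSpace E]

/-- two linear maps with the same norms differ by an isometry of the (finite-dimensional) target -/
theorem exists_isometry {F V : Type*} [AddCommGroup F] [Module ℂ F] [NormedAddCommGroup V]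
    [InnerProductSpace ℂ V] [FiniteDimensional ℂ V] (W₁ W₂ : F →ₗ[ℂ] V)
    (h : ∀ f, ‖W₁ f‖ = ‖W₂ f‖) : ∃ L : V →ₗᵢ[ℂ] V, ∀ f, L (W₁ f) = W₂ f := by
  obtain ⟨g, hg⟩ := W₁.rangeRestrict.exists_rightInverse_of_surjective
    (LinearMap.range_rangeRestrict W₁)
  have hg' : ∀ y : LinearMap.range W₁, W₁ (g y) = y := by
    intro y
    have := congrArg (fun T => (T y : V)) hg
    simpa using this
  let L0 : LinearMap.range W₁ →ₗᵢ[ℂ] V :=
    { toLinearMap := W₂ ∘ₗ g
      norm_map' := by
        intro y
        rw [LinearMap.comp_apply, ← h, hg' y]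
        rfl }
  refine ⟨L0.extend, fun f => ?_⟩
  have h1 := L0.extend_apply ⟨W₁ f, ⟨f, rfl⟩⟩
  have h2 : L0 ⟨W₁ f, ⟨f, rfl⟩⟩ = W₂ f := by
    change W₂ (g ⟨W₁ f, ⟨f, rfl⟩⟩) = W₂ f
    rw [← sub_eq_zero, ← map_sub, ← norm_eq_zero, ← h, map_sub, hg']
    simp
  rw [← h2, ← h1]

/-- the rank one operator `x ↦ ⟨β, x⟩ β` -/
noncomputable def proj (β : E) : Mn E := (innerSL ℂ β).smulRight β

theorem proj_apply (β x : E) : proj β x = (inner ℂ β x) • β := by
  simp [proj]

/-- the elementary factor `b_λ(z) Q + (1 - Q)` -/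
noncomputable def factor (lam : ℂ) (β : E) (z : ℂ) : Mn E :=
  blaschke lam z • proj β + (1 - proj β)

theorem factor_apply (lam : ℂ) (β : E) (z : ℂ) (x : E) :
    factor lam β z x = blaschke lam z • (inner ℂ β x) • β + (x - (inner ℂ β x) • β) := by
  simp [factor, proj_apply]

theorem den_ne_zero {lam : ℂ} (hl : ‖lam‖ < 1) {z : ℂ} (hz : ‖z‖ ≤ 1) :
    1 - (starRingEnd ℂ) lam * z ≠ 0 := by
  intro h
  have h1 : (starRingEnd ℂ) lam * z = 1 := (sub_eq_zero.mp h).symm
  have h2 : ‖(starRingEnd ℂ) lam * z‖ = 1 := by rw [h1]; simp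
  rw [norm_mul, RCLike.norm_conj] at h2
  nlinarith [norm_nonneg lam, norm_nonneg z]

theorem den_mul_blaschke {lam : ℂ} (hl : ‖lam‖ < 1) {z : ℂ} (hz : ‖z‖ ≤ 1) :
    (1 - (starRingEnd ℂ) lam * z) * blaschke lam z = z - lam := by
  unfold blaschke
  field_simp [den_ne_zero hl hz]

/-- the circle point -/
theorem norm_fourier_one (t : UnitAddCircle) : ‖(fourier 1 t : ℂ)‖ = 1 := by
  rw [fourier_apply, Circle.norm_coe]

theorem continuous_blaschke {lam : ℂ} (hl : ‖lam‖ < 1) :
    Continuous (fun t : UnitAddCircle => blaschke lam (fourier 1 t)) := by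
  unfold blaschke
  apply Continuous.div
  · fun_prop
  · fun_prop
  · intro t
    exact den_ne_zero hl (norm_fourier_one t).le

theorem continuous_factor {lam : ℂ} (hl : ‖lam‖ < 1) (β : E) :
    Continuous (fun t : UnitAddCircle => factor lam β (fourier 1 t)) := by
  unfold factor
  exact ((continuous_blaschke hl).smul continuous_const).add continuous_const

/-- the multiplication operator by an elementary factor -/
noncomputable def MF (lam : ℂ) (hl : ‖lam‖ < 1) (β : E) : L2 E →L[ℂ] L2 E :=
  mulC (fun t => factor lam β (fourier 1 t)) (continuous_factor hl β)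

theorem mulC_Z (F : UnitAddCircle → Mn E) (hF : Continuous F) (m : ℤ) (f : L2 E) :
    mulC F hF (Z m f) = Z m (mulC F hF f) := mulOp_Z _ _ _

/-- multiplication by a constant matrix commutes with Fourier coefficients -/
theorem coef_const (A : Mn E) (k : ℤ) (f : L2 E) :
    coef k (mulC (fun _ => A) continuous_const f) = A (coef k f) := by
  rw [coef_apply, coef_apply, fourierCoeff_congr_ae (coeFn_mulC _ _ f)]
  unfold fourierCoeff
  have := A.integral_comp_comm ((integrable_L2 f).fourier_smul (-k))
  rw [← this]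
  congr 1
  funext t
  rw [map_smul]

/-- the recurrence satisfied by `MF` -/
theorem coef_MF_rec (lam : ℂ) (hl : ‖lam‖ < 1) (β : E) (hβ : ‖β‖ = 1) (g : L2 E) (k : ℤ) :
    (inner ℂ β (coef k (MF lam hl β g)) - (starRingEnd ℂ) lam * inner ℂ β (coef (k - 1) (MF lam hl β g)) =
      inner ℂ β (coef (k - 1) g) - lam * inner ℂ β (coef k g)) ∧
    (coef k (MF lam hl β g) - (inner ℂ β (coef k (MF lam hl β g))) • β =
      coef k g - (inner ℂ β (coef k g)) • β) := by
  have hββ : inner ℂ β β = (1 : ℂ) := by
    rw [inner_self_eq_norm_sq_to_K, hβ]; norm_num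
  set Q := proj β with hQ
  have hid1 : mulC (fun _ => Q) continuous_const (MF lam hl β g - (starRingEnd ℂ) lam • Z 1 (MF lam hl β g)) =
      mulC (fun _ => Q) continuous_const (Z 1 g - lam • g) := by
    apply Lp.ext
    filter_upwards [coeFn_mulC (fun _ => Q) continuous_const (MF lam hl β g - (starRingEnd ℂ) lam • Z 1 (MF lam hl β g)),
      coeFn_mulC (fun _ => Q) continuous_const (Z 1 g - lam • g),
      Lp.coeFn_sub (MF lam hl β g) ((starRingEnd ℂ) lam • Z 1 (MF lam hl β g)),
      Lp.coeFn_sub (Z 1 g) (lam • g), Lp.coeFn_smul ((starRingEnd ℂ) lam) (Z 1 (MF lam hl β g)),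
      Lp.coeFn_smul lam g, coeFn_Z 1 g, coeFn_Z 1 (MF lam hl β g),
      coeFn_mulC (fun t => factor lam β (fourier 1 t)) (continuous_factor hl β) g]
      with t h1 h2 h3 h4 h5 h6 h7 h8 h9
    rw [h1, h2, h3, h4, Pi.sub_apply, Pi.sub_apply, h5, h6, Pi.smul_apply, Pi.smul_apply, h7, h8]
    have h9' : (MF lam hl β g) t = factor lam β (fourier 1 t) (g t) := h9
    rw [h9', hQ, proj_apply, proj_apply, factor_apply]
    congr 1
    have hden := den_mul_blaschke hl (norm_fourier_one t).le
    simp only [inner_sub_right, inner_smul_right, inner_add_right, hββ]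
    linear_combination (inner ℂ β (g t)) * hden
  have hid2 : mulC (fun _ => (1 - Q)) continuous_const (MF lam hl β g) =
      mulC (fun _ => (1 - Q)) continuous_const g := by
    apply Lp.ext
    filter_upwards [coeFn_mulC (fun _ => (1 - Q)) continuous_const (MF lam hl β g),
      coeFn_mulC (fun _ => (1 - Q)) continuous_const g,
      coeFn_mulC (fun t => factor lam β (fourier 1 t)) (continuous_factor hl β) g]
      with t h1 h2 h9
    have h9' : (MF lam hl β g) t = factor lam β (fourier 1 t) (g t) := h9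
    rw [h1, h2, h9']
    simp only [sub_apply, one_apply_eq_self, hQ, proj_apply,
      factor_apply, inner_sub_right, inner_smul_right, inner_add_right, hββ]
    module
  constructor
  · have h1 := congrArg (coef k) hid1
    rw [coef_const, coef_const, hQ, proj_apply, proj_apply] at h1
    have h2 := congrArg (fun v => inner ℂ β v) h1
    simp only [inner_smul_right, hββ, mul_one, map_sub, map_smul, coef_Z, inner_sub_right] at h2
    exact h2
  · have h1 := congrArg (coef k) hid2
    rw [coef_const, coef_const] at h1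
    simpa [hQ, proj_apply] using h1

end Pool.Agent.helper34.BT
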