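import Pool.Agent.helper34.Toep2

set_option autoImplicit false
set_option linter.unusedSectionVars false

/-!
# The inductive factorization
-/

open MeasureTheory AddCircle Complex Filter Topology
open scoped ENNReal

namespace Pool.Agent.helper34.BT

variable {E : Type*} [NormedAddCommGroup E] [InnerProductSpace ℂ E] [CompleteSpace E]

theorem exists_unitary_of_isometry [FiniteDimensional ℂ E] (ν : E →ₗᵢ[ℂ] E) :
    ∃ U : Mn E, U ∈ unitary (Mn E) ∧ ∀ x, U x = ν x := by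
  refine ⟨(Unitary.linearIsometryEquiv.symm (ν.toLinearIsometryEquiv rfl)).1,
    (Unitary.linearIsometryEquiv.symm (ν.toLinearIsometryEquiv rfl)).2, ?_⟩
  intro x
  rw [Unitary.coe_symm_linearIsometryEquiv_apply]
  rfl

/-- the lurking isometry, abstractly -/
theorem lurking {X F : Type*} [NormedAddCommGroup X] [InnerProductSpace ℂ X]
    [FiniteDimensional ℂ X] [Nontrivial X] [FiniteDimensional ℂ E] [AddCommGroup F] [Module ℂ F] (J J' : F →ₗ[ℂ] X)
    (h g : F →ₗ[ℂ] E) (hnorm : ∀ f, ‖J f‖ ^ 2 + ‖h f‖ ^ 2 = ‖J' f‖ ^ 2 + ‖g f‖ ^ 2) :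
    ∃ (lam : ℂ) (u : X) (β : E), ‖u‖ = 1 ∧ ‖lam‖ ^ 2 + ‖β‖ ^ 2 = 1 ∧
      ∀ f, inner ℂ u (J f) = (starRingEnd ℂ) lam * inner ℂ u (J' f) + inner ℂ β (g f) := by
  let e := (WithLp.linearEquiv 2 ℂ (X × E))
  let W₁ : F →ₗ[ℂ] WithLp 2 (X × E) := e.symm.toLinearMap ∘ₗ (J'.prod g)
  let W₂ : F →ₗ[ℂ] WithLp 2 (X × E) := e.symm.toLinearMap ∘ₗ (J.prod h)
  have hW₁ : ∀ f, W₁ f = WithLp.toLp 2 (J' f, g f) := fun f => rfl
  have hW₂ : ∀ f, W₂ f = WithLp.toLp 2 (J f, h f) := fun f => rfl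
  have hn : ∀ f, ‖W₁ f‖ = ‖W₂ f‖ := by
    intro f
    rw [← sq_eq_sq₀ (norm_nonneg _) (norm_nonneg _), WithLp.prod_norm_sq_eq_of_L2,
      WithLp.prod_norm_sq_eq_of_L2, hW₁, hW₂]
    exact (hnorm f).symm
  obtain ⟨V, hV⟩ := exists_isometry W₁ W₂ hn
  obtain ⟨V', hV'⟩ : ∃ V' : WithLp 2 (X × E) ≃ₗᵢ[ℂ] WithLp 2 (X × E), ∀ x, V' x = V x :=
    ⟨V.toLinearIsometryEquiv rfl, fun x => rfl⟩
  let A : X →ₗ[ℂ] X := LinearMap.fst ℂ X E ∘ₗ e.toLinearMap ∘ₗ
    V'.symm.toLinearEquiv.toLinearMap ∘ₗ e.symm.toLinearMap ∘ₗ LinearMap.inl ℂ X E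
  have hA : ∀ x, A x = (V'.symm (WithLp.toLp 2 (x, 0))).fst := fun x => rfl
  obtain ⟨lam, hlam⟩ := Module.End.exists_eigenvalue A
  obtain ⟨u₀, hu₀⟩ := hlam.exists_hasEigenvector
  have hu₀ne : u₀ ≠ 0 := hu₀.2
  have hnpos : 0 < ‖u₀‖ := norm_pos_iff.mpr hu₀ne
  let u : X := ((‖u₀‖⁻¹ : ℝ) : ℂ) • u₀
  have hu1 : ‖u‖ = 1 := by
    simp only [u, norm_smul, Complex.norm_real, norm_inv, norm_norm]
    exact inv_mul_cancel₀ hnpos.ne'
  have hAu : A u = lam • u := by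
    have h1 : A u₀ = lam • u₀ := Module.End.mem_eigenspace_iff.mp hu₀.1
    simp only [u, map_smul, h1]
    rw [smul_comm]
  let w := V'.symm (WithLp.toLp 2 (u, 0))
  have hw1 : w.fst = lam • u := by rw [← hAu, hA]
  have hwn : ‖w‖ ^ 2 = 1 := by
    rw [V'.symm.norm_map, WithLp.prod_norm_sq_eq_of_L2]
    simp [hu1]
  refine ⟨lam, u, w.snd, hu1, ?_, ?_⟩
  · rw [WithLp.prod_norm_sq_eq_of_L2, hw1, norm_smul, hu1, mul_one] at hwn
    exact hwn
  · intro f
    have h1 : inner ℂ (WithLp.toLp 2 (u, (0 : E))) (W₂ f) = inner ℂ w (W₁ f) := by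
      rw [← hV f, ← hV' (W₁ f)]
      have : (WithLp.toLp 2 (u, (0 : E))) = V' w := (V'.apply_symm_apply _).symm
      rw [this, V'.inner_map_map]
    rw [WithLp.prod_inner_apply, WithLp.prod_inner_apply, hW₁, hW₂] at h1
    simp only [inner_zero_left, add_zero] at h1
    rw [h1]
    congr 1
    change inner ℂ w.fst (J' f) = _
    rw [hw1, inner_smul_left]

/-- the product `ν ∏ (b_m Q_m + 1 - Q_m)`, with `Q_m` the projection on the line of `β_m` -/
noncomputable def BP (ν : Mn E) (L : List (ℂ × E)) (z : ℂ) : Mn E :=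
  ν * (L.map fun p => factor p.1 p.2 z).prod

def Good (L : List (ℂ × E)) : Prop := ∀ p ∈ L, ‖p.1‖ < 1 ∧ ‖p.2‖ = 1

theorem continuous_BP (ν : Mn E) (L : List (ℂ × E)) (hL : Good L) :
    Continuous (fun t : UnitAddCircle => BP ν L (fourier 1 t)) := by
  unfold BP
  apply Continuous.mul continuous_const
  induction L with
  | nil => simpa using continuous_const
  | cons p L ih =>
    simp only [List.map_cons, List.prod_cons]
    apply Continuous.mul
    · exact continuous_factor (hL p (by simp)).1 p.2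
    · exact ih (fun q hq => hL q (by simp [hq]))

theorem mulC_mul (F G : UnitAddCircle → Mn E) (hF : Continuous F) (hG : Continuous G) (f : L2 E) :
    mulC (fun t => F t * G t) (hF.mul hG) f = mulC F hF (mulC G hG f) := by
  apply Lp.ext
  filter_upwards [coeFn_mulC (fun t => F t * G t) (hF.mul hG) f, coeFn_mulC F hF (mulC G hG f),
    coeFn_mulC G hG f] with t h1 h2 h3
  rw [h1, h2, h3]
  rfl

theorem mulC_congr {F G : UnitAddCircle → Mn E} (hF : Continuous F) (hG : Continuous G)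
    (h : F = G) (f : L2 E) : mulC F hF f = mulC G hG f := by
  subst h; rfl

theorem Good.append_singleton {L : List (ℂ × E)} (hL : Good L) {p : ℂ × E}
    (hp : ‖p.1‖ < 1 ∧ ‖p.2‖ = 1) : Good (L ++ [p]) := by
  intro q hq
  rw [List.mem_append, List.mem_singleton] at hq
  rcases hq with h | h
  · exact hL q h
  · rw [h]; exact hp

theorem BP_append (ν : Mn E) (L : List (ℂ × E)) (p : ℂ × E) (z : ℂ) :
    BP ν (L ++ [p]) z = BP ν L z * factor p.1 p.2 z := by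
  simp [BP, mul_assoc]

theorem mulC_BP_append (ν : Mn E) (L : List (ℂ × E)) (hL : Good L) (lam : ℂ) (β : E)
    (hl : ‖lam‖ < 1) (hβ : ‖β‖ = 1) (f : L2 E) :
    mulC (fun t => BP ν (L ++ [(lam, β)]) (fourier 1 t))
      (continuous_BP ν _ (hL.append_singleton ⟨hl, hβ⟩)) f =
    mulC (fun t => BP ν L (fourier 1 t)) (continuous_BP ν L hL) (MF lam hl β f) := by
  rw [MF, ← mulC_mul]
  apply mulC_congr
  funext t
  rw [BP_append]

/-- the analytic part of the inductive step: the value of the new `(-1)`-coefficient -/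
theorem coef_MF_formula {F : Type*} [AddCommGroup F] [Module ℂ F] (S : F →ₗ[ℂ] F)
    (Γ : F →ₗ[ℂ] L2 E) (hΓ : ∀ f, Γ (S f) = Z 1 (Γ f)) (lam : ℂ) (hl : ‖lam‖ < 1) (β : E)
    (hβ : ‖β‖ = 1) (c : ℝ) (hc : c ^ 2 = 1 - ‖lam‖ ^ 2) (ξ : F →ₗ[ℂ] ℂ)
    (hξ0 : ∀ f, Tendsto (fun k : ℕ => ξ ((S ^ k) f)) atTop (𝓝 0))
    (hξ : ∀ f, ξ f = (starRingEnd ℂ) lam * ξ (S f) + c * inner ℂ β (coef (-1) (Γ f))) (f : F) :
    inner ℂ β (coef (-1) (MF lam hl β (Γ f))) = c * ξ (S f) - lam * inner ℂ β (coef (-1) (Γ f)) := by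
  set q : F → ℂ := fun f => inner ℂ β (coef (-1) (MF lam hl β (Γ f))) with hq
  set γ : F → ℂ := fun f => inner ℂ β (coef (-1) (Γ f)) with hγ
  set δ : F → ℂ := fun f => q f - (c * ξ (S f) - lam * γ f) with hδ
  have hcc : (c : ℂ) * c = 1 - (starRingEnd ℂ) lam * lam := by
    have h1 : ((c ^ 2 : ℝ) : ℂ) = ((1 - ‖lam‖ ^ 2 : ℝ) : ℂ) := by rw [hc]
    push_cast at h1
    rw [← Complex.conj_mul'] at h1
    rw [← h1]; ring
  have hqrec : ∀ f, q f - (starRingEnd ℂ) lam * q (S f) = γ (S f) - lam * γ f := by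
    intro f
    have h1 := (coef_MF_rec lam hl β hβ (Γ f) (-1)).1
    simp only [hq, hγ]
    rw [hΓ, coef_Z, MF, mulC_Z, coef_Z]
    exact h1
  have hδrec : ∀ f, δ f = (starRingEnd ℂ) lam * δ (S f) := by
    intro f
    have h1 := hqrec f
    have h2 := hξ (S f)
    have h3 : ξ (S f) = (starRingEnd ℂ) lam * ξ (S (S f)) + c * γ (S f) := h2
    simp only [hδ]
    linear_combination h1 - c * h3 - γ (S f) * hcc
  have hδpow : ∀ (k : ℕ) (f : F), δ f = ((starRingEnd ℂ) lam) ^ k * δ ((S ^ k) f) := by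
    intro k
    induction k with
    | zero => intro f; simp
    | succ k ih =>
      intro f
      rw [ih f, hδrec ((S ^ k) f), pow_succ, pow_succ', Module.End.mul_apply]
      ring
  have hΓk : ∀ (k : ℕ) (f : F), ‖Γ ((S ^ k) f)‖ = ‖Γ f‖ := by
    intro k
    induction k with
    | zero => intro f; simp
    | succ k ih =>
      intro f
      rw [pow_succ', Module.End.mul_apply, hΓ, norm_Z, ih]
  -- boundedness of `δ (S^k f)`
  have hcoef : ∀ (k : ℤ) (g : L2 E), ‖coef k g‖ ≤ ‖g‖ := fun k g => norm_fourierCoeff_le g k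
  obtain ⟨M, hM⟩ : ∃ M : ℝ, ∀ k : ℕ, ‖δ ((S ^ k) f)‖ ≤ M := by
    have h1 := ((hξ0 (S f)).norm).bddAbove_range
    obtain ⟨M₁, hM₁⟩ := h1
    refine ⟨‖MF lam hl β‖ * ‖Γ f‖ + (|c| * M₁ + ‖lam‖ * ‖Γ f‖), ?_⟩
    intro k
    have hq1 : ‖q ((S ^ k) f)‖ ≤ ‖MF lam hl β‖ * ‖Γ f‖ := by
      calc ‖q ((S ^ k) f)‖ ≤ ‖β‖ * ‖coef (-1) (MF lam hl β (Γ ((S ^ k) f)))‖ :=
            norm_inner_le_norm _ _
        _ ≤ 1 * ‖MF lam hl β (Γ ((S ^ k) f))‖ := by
            rw [hβ]; gcongr; exact hcoef _ _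
        _ ≤ 1 * (‖MF lam hl β‖ * ‖Γ ((S ^ k) f)‖) := by
            gcongr; exact ContinuousLinearMap.le_opNorm _ _
        _ = ‖MF lam hl β‖ * ‖Γ f‖ := by rw [hΓk, one_mul]
    have hγ1 : ‖γ ((S ^ k) f)‖ ≤ ‖Γ f‖ := by
      calc ‖γ ((S ^ k) f)‖ ≤ ‖β‖ * ‖coef (-1) (Γ ((S ^ k) f))‖ := norm_inner_le_norm _ _
        _ ≤ 1 * ‖Γ ((S ^ k) f)‖ := by rw [hβ]; gcongr; exact hcoef _ _
        _ = ‖Γ f‖ := by rw [hΓk, one_mul]
    have hξ1 : ‖ξ (S ((S ^ k) f))‖ ≤ M₁ := by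
      have h2 : S ((S ^ k) f) = (S ^ k) (S f) := by
        rw [← Module.End.mul_apply, ← Module.End.mul_apply, ← pow_succ', pow_succ]
      rw [h2]
      exact hM₁ ⟨k, rfl⟩
    calc ‖δ ((S ^ k) f)‖ ≤ ‖q ((S ^ k) f)‖ + ‖(c : ℂ) * ξ (S ((S ^ k) f)) - lam * γ ((S ^ k) f)‖ :=
          norm_sub_le _ _
      _ ≤ ‖q ((S ^ k) f)‖ + (‖(c : ℂ) * ξ (S ((S ^ k) f))‖ + ‖lam * γ ((S ^ k) f)‖) := by
          gcongr; exact norm_sub_le _ _
      _ ≤ _ := by
          rw [norm_mul, norm_mul, Complex.norm_real, Real.norm_eq_abs]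
          gcongr
  have hlim : Tendsto (fun k : ℕ => ‖lam‖ ^ k * M) atTop (𝓝 0) := by
    have := (tendsto_pow_atTop_nhds_zero_of_lt_one (norm_nonneg lam) hl).mul_const M
    simpa using this
  have hδ0 : ‖δ f‖ ≤ 0 := by
    refine ge_of_tendsto' hlim (fun k => ?_)
    rw [hδpow k f, norm_mul, norm_pow, RCLike.norm_conj]
    gcongr
    exact hM k
  have hδ1 : δ f = 0 := norm_le_zero_iff.mp hδ0
  exact sub_eq_zero.mp hδ1

theorem pyth (β : E) (hβ : ‖β‖ = 1) (y : E) :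
    ‖y‖ ^ 2 = ‖y - (inner ℂ β y : ℂ) • β‖ ^ 2 + ‖(inner ℂ β y : ℂ)‖ ^ 2 := by
  have h1 : inner ℂ (y - (inner ℂ β y : ℂ) • β) ((inner ℂ β y : ℂ) • β) = 0 := by
    rw [inner_smul_right, inner_sub_left, inner_smul_left, inner_self_eq_norm_sq_to_K, hβ,
      inner_conj_symm]
    simp
  have h2 := norm_add_sq_eq_norm_sq_add_norm_sq_of_inner_eq_zero (𝕜 := ℂ) _ _ h1
  rw [sub_add_cancel, norm_smul, hβ, mul_one] at h2
  nlinarith [h2]

/-- the main induction -/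
theorem main_ind [FiniteDimensional ℂ E] (F : Type*) [AddCommGroup F] [Module ℂ F] (S : F →ₗ[ℂ] F)
    (r : ℕ) : ∀ (X : Type) [NormedAddCommGroup X] [InnerProductSpace ℂ X]
    [FiniteDimensional ℂ X], Module.finrank ℂ X = r →
    ∀ (J : F →ₗ[ℂ] X)
      (Γ : F →ₗ[ℂ] L2 E) (h : F →ₗ[ℂ] E), Function.Surjective J →
      (∀ f, Tendsto (fun k : ℕ => J ((S ^ k) f)) atTop (𝓝 0)) →
      (∀ f, Γ (S f) = Z 1 (Γ f)) →
      (∀ f, ‖J f‖ ^ 2 + ‖h f‖ ^ 2 = ‖J (S f)‖ ^ 2 + ‖coef (-1) (Γ f)‖ ^ 2) →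
      ∃ (ν : Mn E) (L : List (ℂ × E)) (hL : Good L), ν ∈ unitary (Mn E) ∧ L.length = r ∧
        ∀ f, h f = coef (-1) (mulC (fun t => BP ν L (fourier 1 t)) (continuous_BP ν L hL) (Γ f)) := by
  induction r with
  | zero =>
    intro X _ _ _ hX J Γ h hJ hJS hΓ hnorm
    have hsub : Subsingleton X := Module.finrank_zero_iff.mp hX
    obtain ⟨ν, hν⟩ := exists_isometry  ((coef (-1)).toLinearMap ∘ₗ Γ) h (by
      intro f
      have h1 := hnorm f
      rw [Subsingleton.elim (J f) 0, Subsingleton.elim (J (S f)) 0] at h1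
      simp only [norm_zero] at h1
      have h2 : ‖h f‖ ^ 2 = ‖coef (-1) (Γ f)‖ ^ 2 := by linarith
      exact ((sq_eq_sq₀ (norm_nonneg _) (norm_nonneg _)).mp h2).symm)
    obtain ⟨U, hU, hUν⟩ := exists_unitary_of_isometry ν
    refine ⟨U, [], (by intro p hp; simp at hp), hU, rfl, ?_⟩
    intro f
    rw [mulC_congr (G := fun _ => U) _ continuous_const
      (by funext t; simp [BP]), coef_const, hUν]
    exact (hν f).symm
  | succ r ih =>
    intro X _ _ _ hX J Γ h hJ hJS hΓ hnorm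
    have hnt : Nontrivial X := by
      apply Module.nontrivial_of_finrank_pos (R := ℂ)
      omega
    obtain ⟨lam, u, β₀, hu, hlb, hrel⟩ := lurking J (J ∘ₗ S) h ((coef (-1)).toLinearMap ∘ₗ Γ) hnorm
    have hrel' : ∀ f, inner ℂ u (J f) = (starRingEnd ℂ) lam * inner ℂ u (J (S f)) +
        inner ℂ β₀ (coef (-1) (Γ f)) := hrel
    -- `ξ`
    let ξ : F →ₗ[ℂ] ℂ := (innerSL ℂ u).toLinearMap ∘ₗ J
    have hξ : ∀ f, ξ f = inner ℂ u (J f) := fun f => rfl
    have hξ0 : ∀ f, Tendsto (fun k : ℕ => ξ ((S ^ k) f)) atTop (𝓝 0) := by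
      intro f
      have h1 := ((innerSL ℂ u).continuous.tendsto 0).comp (hJS f)
      rw [map_zero] at h1
      exact h1
    have hu0 : u ≠ 0 := by
      intro h0; rw [h0, norm_zero] at hu; norm_num at hu
    -- `β₀ ≠ 0`
    have hβ₀ : β₀ ≠ 0 := by
      intro h0
      rw [h0, norm_zero] at hlb
      have hl1 : ‖lam‖ = 1 := by
        have : ‖lam‖ ^ 2 = 1 := by linarith
        nlinarith [norm_nonneg lam]
      have h1 : ∀ (k : ℕ) (f : F), ‖ξ f‖ = ‖ξ ((S ^ k) f)‖ := by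
        intro k
        induction k with
        | zero => intro f; simp
        | succ k ihk =>
          intro f
          rw [ihk f, hξ, hrel', h0, inner_zero_left, add_zero, norm_mul, RCLike.norm_conj, hl1,
            one_mul, pow_succ', Module.End.mul_apply, ← hξ]
      obtain ⟨f, hf⟩ := hJ u
      have h2 := (hξ0 f).norm
      simp only [← h1, norm_zero] at h2
      have h3 := tendsto_nhds_unique h2 tendsto_const_nhds
      rw [hξ, hf, inner_self_eq_norm_sq_to_K, hu] at h3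
      norm_num at h3
    set c : ℝ := ‖β₀‖ with hc
    have hcpos : 0 < c := norm_pos_iff.mpr hβ₀
    have hl : ‖lam‖ < 1 := by
      have : ‖lam‖ ^ 2 < 1 := by nlinarith
      nlinarith [norm_nonneg lam]
    set β : E := ((c⁻¹ : ℝ) : ℂ) • β₀ with hβdef
    have hβ : ‖β‖ = 1 := by
      rw [hβdef, norm_smul, Complex.norm_real, Real.norm_eq_abs, abs_of_pos (inv_pos.mpr hcpos), ← hc]
      exact inv_mul_cancel₀ hcpos.ne'
    have hβ₀β : ∀ x, inner ℂ β₀ x = (c : ℂ) * inner ℂ β x := by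
      intro x
      rw [hβdef, inner_smul_left, Complex.conj_ofReal]
      push_cast
      rw [← mul_assoc, mul_inv_cancel₀ (by exact_mod_cast hcpos.ne'), one_mul]
    have hcsq : c ^ 2 = 1 - ‖lam‖ ^ 2 := by linarith
    have hξrel : ∀ f, ξ f = (starRingEnd ℂ) lam * ξ (S f) + c * inner ℂ β (coef (-1) (Γ f)) := by
      intro f
      rw [hξ, hξ, hrel', hβ₀β]
    have hform := coef_MF_formula S Γ hΓ lam hl β hβ c hcsq ξ hξ0 hξrel
    -- the reduced data
    let K : Submodule ℂ X := (ℂ ∙ u)ᗮ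
    have hKfin : Module.finrank ℂ K = r := by
      have h1 := Submodule.finrank_add_finrank_orthogonal (ℂ ∙ u)
      rw [finrank_span_singleton hu0, hX] at h1
      change Module.finrank ℂ (ℂ ∙ u)ᗮ = r
      omega
    let J₁ : F →ₗ[ℂ] K := K.orthogonalProjectionOnto.toLinearMap ∘ₗ J
    have hJ₁surj : Function.Surjective J₁ := by
      intro y
      obtain ⟨f, hf⟩ := hJ (y : X)
      refine ⟨f, ?_⟩
      change K.orthogonalProjectionOnto (J f) = y
      rw [hf, Submodule.orthogonalProjectionOnto_mem_subspace_eq_self]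
    have hJ₁lim : ∀ f, Tendsto (fun k : ℕ => J₁ ((S ^ k) f)) atTop (𝓝 0) := by
      intro f
      have h1 := (K.orthogonalProjectionOnto.continuous.tendsto 0).comp (hJS f)
      rw [map_zero] at h1
      exact h1
    let Γ₁ : F →ₗ[ℂ] L2 E := (MF lam hl β).toLinearMap ∘ₗ Γ
    have hΓ₁ : ∀ f, Γ₁ (S f) = Z 1 (Γ₁ f) := by
      intro f
      change MF lam hl β (Γ (S f)) = Z 1 (MF lam hl β (Γ f))
      rw [hΓ, MF, mulC_Z]
    have hsplit : ∀ f, ‖J f‖ ^ 2 = ‖J₁ f‖ ^ 2 + ‖ξ f‖ ^ 2 := by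
      intro f
      have h1 := Submodule.norm_sq_eq_add_norm_sq_projection (J f) (ℂ ∙ u)
      rw [h1]
      have h2 : ‖(ℂ ∙ u).orthogonalProjectionOnto (J f)‖ = ‖ξ f‖ := by
        have h3 : ((ℂ ∙ u).orthogonalProjectionOnto (J f) : X) = (inner ℂ u (J f)) • u := by
          change (ℂ ∙ u).starProjection (J f) = _
          rw [Submodule.starProjection_unit_singleton ℂ hu]
        have h4 : ‖(ℂ ∙ u).orthogonalProjectionOnto (J f)‖ =
          ‖((ℂ ∙ u).orthogonalProjectionOnto (J f) : X)‖ := rfl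
        rw [h4, h3, norm_smul, hu, mul_one, hξ]
      rw [h2, add_comm]
      rfl
    have hnorm₁ : ∀ f, ‖J₁ f‖ ^ 2 + ‖h f‖ ^ 2 = ‖J₁ (S f)‖ ^ 2 + ‖coef (-1) (Γ₁ f)‖ ^ 2 := by
      intro f
      have h0 := hnorm f
      rw [hsplit f, hsplit (S f)] at h0
      set x := coef (-1) (Γ₁ f) with hx
      set g := coef (-1) (Γ f) with hg
      have hx1 : x - (inner ℂ β x) • β = g - (inner ℂ β g) • β :=
        (coef_MF_rec lam hl β hβ (Γ f) (-1)).2
      have hq : inner ℂ β x = c * ξ (S f) - lam * inner ℂ β g := hform f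
      have hpyth := pyth β hβ
      have hkey : ‖(inner ℂ β x : ℂ)‖ ^ 2 + ‖ξ f‖ ^ 2 = ‖ξ (S f)‖ ^ 2 + ‖(inner ℂ β g : ℂ)‖ ^ 2 := by
        rw [hq, hξrel f]
        have h1 : ∀ z : ℂ, ((‖z‖ ^ 2 : ℝ) : ℂ) = (starRingEnd ℂ) z * z := by
          intro z; rw [Complex.conj_mul']; push_cast; rfl
        have hcc : (c : ℂ) * c = 1 - (starRingEnd ℂ) lam * lam := by
          have h1 : ((c ^ 2 : ℝ) : ℂ) = ((1 - ‖lam‖ ^ 2 : ℝ) : ℂ) := by rw [hcsq]
          push_cast at h1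
          rw [← Complex.conj_mul'] at h1
          rw [← h1]; ring
        apply Complex.ofReal_injective
        push_cast [h1]
        simp only [map_sub, map_add, map_mul, Complex.conj_ofReal, Complex.conj_conj]
        linear_combination ((starRingEnd ℂ) (ξ (S f)) * ξ (S f) +
          (starRingEnd ℂ) (inner ℂ β g) * inner ℂ β g) * hcc
      have h2 := hpyth x
      have h3 := hpyth g
      rw [hx1] at h2
      linarith
    obtain ⟨ν, L, hL, hν, hlen, hfin⟩ := ih K hKfin J₁ Γ₁ h hJ₁surj hJ₁lim hΓ₁ hnorm₁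
    refine ⟨ν, L ++ [(lam, β)], hL.append_singleton ⟨hl, hβ⟩, hν, by simp [hlen], ?_⟩
    intro f
    rw [mulC_BP_append ν L hL lam β hl hβ]
    exact hfin f

end Pool.Agent.helper34.BT
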