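import Pool.Agent.helper34.Toep3

set_option autoImplicit false
set_option linter.unusedSectionVars false

/-!
# Application to hyponormal block Toeplitz operators
-/

open MeasureTheory AddCircle Complex Filter Topology
open scoped ENNReal

namespace Pool.Agent.helper34.BT

/-- factorization `C = J^* J` of a finite-rank positive operator with surjective `J` -/
theorem finite_rank_factor {H : Type*} [NormedAddCommGroup H] [InnerProductSpace ℂ H]
    [CompleteSpace H] (C : H →L[ℂ] H) (hC : C.IsPositive)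
    (hfin : FiniteDimensional ℂ (LinearMap.range (C : H →ₗ[ℂ] H))) :
    ∃ J : H →L[ℂ] EuclideanSpace ℂ (Fin (Module.finrank ℂ (LinearMap.range (C : H →ₗ[ℂ] H)))),
      Function.Surjective J ∧ ∀ f, ‖J f‖ ^ 2 = (inner ℂ (C f) f).re := by
  set R := LinearMap.range (C : H →ₗ[ℂ] H) with hR
  have hsym : (C : H →ₗ[ℂ] H).IsSymmetric := hC.1
  have hsym' : ∀ x y : H, inner ℂ (C x) y = inner ℂ x (C y) := hsym
  have hinv : ∀ v ∈ R, (C : H →ₗ[ℂ] H) v ∈ R := fun v _ => ⟨v, rfl⟩
  let T : R →ₗ[ℂ] R := (C : H →ₗ[ℂ] H).restrict hinv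
  have hT : T.IsSymmetric := hsym.restrict_invariant hinv
  have hTapp : ∀ x : R, ((T x : R) : H) = C x := fun x => rfl
  set b := hT.eigenvectorBasis rfl with hb
  set ev := hT.eigenvalues rfl with hev
  have hTb : ∀ i, T (b i) = (ev i : ℂ) • b i := fun i => hT.apply_eigenvectorBasis rfl i
  have hevnn : ∀ i, 0 ≤ ev i := by
    intro i
    have h1 := hC.re_inner_nonneg_left (b i : H)
    have h2 : inner ℂ (C (b i : H)) (b i : H) = (ev i : ℂ) := by
      rw [← hTapp, hTb, ← Submodule.coe_inner, inner_smul_left, Complex.conj_ofReal,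
        inner_self_eq_norm_sq_to_K, b.norm_eq_one]
      simp
    rw [h2] at h1
    simpa using h1
  have hevpos : ∀ i, 0 < ev i := by
    intro i
    refine lt_of_le_of_ne (hevnn i) (fun h0 => ?_)
    have h1 : C (b i : H) = 0 := by
      rw [← hTapp, hTb, ← h0]; simp
    obtain ⟨g, hg⟩ := (b i).2
    have hg' : C g = (b i : H) := hg
    have h2 : inner ℂ (b i : H) (b i : H) = (0 : ℂ) := by
      nth_rewrite 1 [← hg']
      rw [hsym', h1, inner_zero_right]
    have h3 : (b i : H) = 0 := inner_self_eq_zero.mp h2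
    have h4 : ‖b i‖ = 1 := b.norm_eq_one i
    rw [Submodule.coe_norm, h3, norm_zero] at h4
    norm_num at h4
  -- definition of J
  let J : H →L[ℂ] EuclideanSpace ℂ (Fin (Module.finrank ℂ R)) :=
    (EuclideanSpace.equiv (Fin (Module.finrank ℂ R)) ℂ).symm.toContinuousLinearMap ∘L
      ContinuousLinearMap.pi (fun i => ((Real.sqrt (ev i) : ℝ) : ℂ) • innerSL ℂ (b i : H))
  have hJ : ∀ f i, J f i = ((Real.sqrt (ev i) : ℝ) : ℂ) * inner ℂ (b i : H) f := fun f i => rfl
  refine ⟨J, ?_, ?_⟩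
  · intro y
    refine ⟨∑ i, (((Real.sqrt (ev i))⁻¹ : ℝ) : ℂ) • y i • (b i : H), ?_⟩
    ext i
    rw [hJ, inner_sum, Finset.sum_eq_single i]
    · rw [inner_smul_right, inner_smul_right, ← Submodule.coe_inner, inner_self_eq_norm_sq_to_K,
        b.norm_eq_one]
      have h1 : Real.sqrt (ev i) ≠ 0 := (Real.sqrt_pos.mpr (hevpos i)).ne'
      have h2 : ((Real.sqrt (ev i) : ℝ) : ℂ) * (((Real.sqrt (ev i))⁻¹ : ℝ) : ℂ) = 1 := by
        rw [← Complex.ofReal_mul, mul_inv_cancel₀ h1, Complex.ofReal_one]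
      simp only [RCLike.ofReal_one, one_pow, mul_one]
      rw [← mul_assoc, h2, one_mul]
    · intro j _ hj
      rw [inner_smul_right, inner_smul_right, ← Submodule.coe_inner,
        b.orthonormal.2 (Ne.symm hj), mul_zero, mul_zero]
    · intro h; exact absurd (Finset.mem_univ i) h
  · intro f
    set x : R := R.orthogonalProjectionOnto f with hx
    have hCf : C f = C (x : H) := by
      rw [← sub_eq_zero, ← map_sub]
      have h1 : f - (x : H) ∈ Rᗮ := Submodule.sub_starProjection_mem_orthogonal (K := R) f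
      have h2 : inner ℂ (C (f - x)) (C (f - x)) = (0 : ℂ) := by
        rw [hsym', inner_eq_zero_symm]
        exact h1 _ ⟨C (f - x), rfl⟩
      exact inner_self_eq_zero.mp h2
    have hbf : ∀ i, inner ℂ (b i : H) f = inner ℂ (b i) x := by
      intro i
      rw [Submodule.coe_inner, ← sub_eq_zero, ← inner_sub_right]
      exact (Submodule.sub_starProjection_mem_orthogonal (K := R) f) _ (b i).2
    have h1 : inner ℂ (C f) f = inner ℂ (T x) x := by
      rw [Submodule.coe_inner, hTapp, hCf, ← sub_eq_zero, ← inner_sub_right]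
      exact (Submodule.sub_starProjection_mem_orthogonal (K := R) f) _ ⟨x, rfl⟩
    rw [h1, ← b.sum_inner_mul_inner, EuclideanSpace.norm_sq_eq, Complex.re_sum]
    refine Finset.sum_congr rfl (fun i _ => ?_)
    rw [hJ, hbf, hT, hTb, inner_smul_right, norm_mul, mul_pow, Complex.norm_real, Real.norm_eq_abs,
      sq_abs, Real.sq_sqrt (hevnn i), mul_assoc, Complex.re_ofReal_mul]
    congr 1
    rw [← inner_conj_symm x (b i), Complex.conj_mul']
    norm_cast

variable {E : Type*} [NormedAddCommGroup E] [InnerProductSpace ℂ E] [CompleteSpace E]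
  [FiniteDimensional ℂ E]

theorem coe_toeplitz (Φ : LinfM E) (f : H2 E) : ((toeplitz Φ f : H2 E) : L2 E) = P (mulOp Φ f) := rfl

theorem inner_P_left (g : L2 E) (f : L2 E) (hf : f ∈ H2 E) : inner ℂ (P g) f = inner ℂ g f := by
  symm
  rw [← sub_eq_zero, ← inner_sub_left]
  exact Submodule.starProjection_inner_eq_zero (K := H2 E) _ _ hf

theorem star_star' (Φ : LinfM E) : star (star Φ) = Φ := star_star Φ

theorem adjoint_toeplitz (Φ : LinfM E) :
    ContinuousLinearMap.adjoint (toeplitz Φ) = toeplitz (star Φ) := by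
  symm
  rw [ContinuousLinearMap.eq_adjoint_iff]
  intro x y
  rw [Submodule.coe_inner, Submodule.coe_inner, coe_toeplitz, coe_toeplitz, inner_P_left _ _ y.2,
    inner_mulOp, star_star', ← inner_conj_symm, ← inner_P_left _ _ x.2, inner_conj_symm]

theorem re_inner_selfComm (Φ : LinfM E) (f : H2 E) :
    (inner ℂ (selfComm (toeplitz Φ) f) f).re =
      ‖mulOp Φ f‖ ^ 2 - ‖mulOp (star Φ) f‖ ^ 2 - N (mulOp Φ f) + N (mulOp (star Φ) f) := by
  have h5 : inner ℂ (selfComm (toeplitz Φ) f) f =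
      inner ℂ (toeplitz Φ f) (toeplitz Φ f) -
        inner ℂ (toeplitz (star Φ) f) (toeplitz (star Φ) f) := by
    unfold selfComm
    rw [sub_apply, inner_sub_left, ContinuousLinearMap.comp_apply,
      ContinuousLinearMap.comp_apply, ContinuousLinearMap.adjoint_inner_left]
    rw [← ContinuousLinearMap.adjoint_inner_right (toeplitz Φ) (ContinuousLinearMap.adjoint (toeplitz Φ) f) f,
      adjoint_toeplitz]
  have h6 : ∀ x : H2 E, (inner ℂ x x).re = ‖x‖ ^ 2 := fun x => inner_self_eq_norm_sq (𝕜 := ℂ) x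
  rw [h5, Complex.sub_re, h6, h6]
  have h1 := N_eq (mulOp Φ f)
  have h2 := N_eq (mulOp (star Φ) f)
  have h3 : ‖toeplitz Φ f‖ = ‖P (mulOp Φ f)‖ := rfl
  have h4 : ‖toeplitz (star Φ) f‖ = ‖P (mulOp (star Φ) f)‖ := rfl
  rw [h3, h4]
  linarith

theorem Z_mem (f : L2 E) (hf : f ∈ H2 E) : Z 1 f ∈ H2 E := by
  rw [mem_H2]
  intro k hk
  rw [coef_Z]
  exact (mem_H2 f).mp hf _ (by omega)

/-- the shift on `H²` -/
noncomputable def shift : H2 E →ₗ[ℂ] H2 E :=
  LinearMap.codRestrict (H2 E) ((Z (E := E) 1).toLinearMap ∘ₗ (H2 E).subtype)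
    (fun f => by exact Z_mem (f : L2 E) f.2)

theorem coe_shift (f : H2 E) : ((shift f : H2 E) : L2 E) = Z 1 f := rfl

theorem coe_shift_pow (k : ℕ) : ∀ (f : H2 E), (((shift ^ k) f : H2 E) : L2 E) = Z (k : ℤ) f := by
  induction k with
  | zero => intro f; simp [Z_zero]
  | succ k ih =>
    intro f
    rw [pow_succ', Module.End.mul_apply, coe_shift, ih, ← Z_add]
    congr 2
    push_cast; ring

theorem tendsto_J {r : ℕ} (J : H2 E →L[ℂ] EuclideanSpace ℂ (Fin r)) (f : H2 E) :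
    Tendsto (fun k : ℕ => J ((shift ^ k) f)) atTop (𝓝 0) := by
  have h1 : ∀ i, Tendsto (fun k : ℕ => (J ((shift ^ k) f)) i) atTop (𝓝 0) := by
    intro i
    have h2 := tendsto_inner_Z ((ContinuousLinearMap.adjoint J (EuclideanSpace.single i 1) : H2 E) : L2 E)
      (f : L2 E) f.2
    refine h2.congr (fun k => ?_)
    rw [← coe_shift_pow, ← Submodule.coe_inner, ContinuousLinearMap.adjoint_inner_left,
      EuclideanSpace.inner_single_left]
    simp
  have h2 : Tendsto (fun k : ℕ => (EuclideanSpace.equiv (Fin r) ℂ) (J ((shift ^ k) f))) atTop (𝓝 0) :=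
    tendsto_pi_nhds.mpr h1
  have h3 := ((EuclideanSpace.equiv (Fin r) ℂ).symm.continuous.tendsto 0).comp h2
  rw [map_zero] at h3
  refine h3.congr (fun k => ?_)
  simp

/-- the first half of the main result: `B` with the right negative coefficients -/
theorem exists_BP (Φ : LinfM E) (hyp : Hyponormal (toeplitz Φ))
    (hfin : FiniteDimensional ℂ (LinearMap.range (selfComm (toeplitz Φ) : H2 E →ₗ[ℂ] H2 E))) :
    ∃ (ν : Mn E) (L : List (ℂ × E)) (hL : Good L), ν ∈ unitary (Mn E) ∧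
      L.length = Module.finrank ℂ (LinearMap.range (selfComm (toeplitz Φ) : H2 E →ₗ[ℂ] H2 E)) ∧
        ∀ f : H2 E, coef (-1) (mulOp Φ f) =
          coef (-1) (mulC (fun t => BP ν L (fourier 1 t)) (continuous_BP ν L hL)
            (mulOp (star Φ) f)) := by
  obtain ⟨J, hJs, hJn⟩ := finite_rank_factor (selfComm (toeplitz Φ)) hyp hfin
  have hquad : ∀ f : H2 E, ‖J f‖ ^ 2 = ‖mulOp Φ f‖ ^ 2 - ‖mulOp (star Φ) f‖ ^ 2 -
      N (mulOp Φ f) + N (mulOp (star Φ) f) := fun f => by rw [hJn, re_inner_selfComm]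
  have hD : ∀ f : H2 E, ‖mulOp Φ f‖ ^ 2 - ‖mulOp (star Φ) f‖ ^ 2 = 0 := by
    intro f
    have h1 : ∀ k : ℕ, ‖J ((shift ^ k) f)‖ ^ 2 = ‖mulOp Φ f‖ ^ 2 - ‖mulOp (star Φ) f‖ ^ 2 -
      N (Z (k : ℤ) (mulOp Φ f)) + N (Z (k : ℤ) (mulOp (star Φ) f)) := by
      intro k
      rw [hquad, coe_shift_pow, mulOp_Z, mulOp_Z, norm_Z, norm_Z]
    have h2 : Tendsto (fun k : ℕ => ‖J ((shift ^ k) f)‖ ^ 2) atTop (𝓝 0) := by
      have := ((tendsto_J J f).norm).pow 2
      simpa using this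
    have h3 : Tendsto (fun k : ℕ => ‖mulOp Φ f‖ ^ 2 - ‖mulOp (star Φ) f‖ ^ 2 -
      N (Z (k : ℤ) (mulOp Φ f)) + N (Z (k : ℤ) (mulOp (star Φ) f))) atTop
        (𝓝 (‖mulOp Φ f‖ ^ 2 - ‖mulOp (star Φ) f‖ ^ 2 - 0 + 0)) :=
      (tendsto_const_nhds.sub (tendsto_N _)).add (tendsto_N _)
    rw [sub_zero, add_zero] at h3
    simp only [h1] at h2
    exact tendsto_nhds_unique h3 h2
  obtain ⟨ν, L, hL, hν, hlen, hfin2⟩ := main_ind (E := E) (H2 E) shift _ _ (finrank_euclideanSpace_fin (𝕜 := ℂ))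
    J.toLinearMap ((mulOp (star Φ)).toLinearMap ∘ₗ (H2 E).subtype)
    ((coef (-1)).toLinearMap ∘ₗ (mulOp Φ).toLinearMap ∘ₗ (H2 E).subtype) hJs
    (fun f => tendsto_J J f)
    (fun f => by
      change mulOp (star Φ) (Z 1 f) = Z 1 (mulOp (star Φ) f)
      rw [mulOp_Z])
    (fun f => by
      change ‖J f‖ ^ 2 + ‖coef (-1) (mulOp Φ f)‖ ^ 2 =
        ‖J (shift f)‖ ^ 2 + ‖coef (-1) (mulOp (star Φ) f)‖ ^ 2
      have h1 := hquad f
      have h2 := hquad (shift f)
      rw [hD] at h1 h2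
      rw [coe_shift, mulOp_Z, mulOp_Z] at h2
      have h3 := N_Z_one (mulOp Φ f)
      have h4 := N_Z_one (mulOp (star Φ) f)
      linarith)
  exact ⟨ν, L, hL, hν, hlen, hfin2⟩

end Pool.Agent.helper34.BT
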