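import Pool.Agent.helper34.Toep4

set_option autoImplicit false
set_option linter.unusedSectionVars false

/-!
# Final assembly
-/

open MeasureTheory AddCircle Complex Filter Topology
open scoped ENNReal

namespace Pool.Agent.helper34.BT

variable {E : Type*} [NormedAddCommGroup E] [InnerProductSpace ℂ E] [CompleteSpace E]
  [FiniteDimensional ℂ E]

/-! ### determinants and degree -/

theorem det_mul' (A B : Mn E) : (A * B).det = A.det * B.det :=
  LinearMap.det_comp (A : E →ₗ[ℂ] E) (B : E →ₗ[ℂ] E)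

theorem det_factor (lam : ℂ) (β : E) (hβ : ‖β‖ = 1) (z : ℂ) :
    (factor lam β z).det = blaschke lam z := by
  have h1 : ((factor lam β z : Mn E) : E →ₗ[ℂ] E) =
      LinearMap.transvection (((blaschke lam z - 1) • innerSL ℂ β : E →L[ℂ] ℂ) : E →ₗ[ℂ] ℂ) β := by
    ext1 x
    change factor lam β z x = x + ((blaschke lam z - 1) * inner ℂ β x) • β
    rw [factor_apply]
    module
  have hββ : inner ℂ β β = (1 : ℂ) := by
    rw [inner_self_eq_norm_sq_to_K, hβ]; norm_num
  change LinearMap.det ((factor lam β z : Mn E) : E →ₗ[ℂ] E) = _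
  rw [h1, LinearMap.transvection.det]
  change 1 + (blaschke lam z - 1) * inner ℂ β β = _
  rw [hββ]
  ring

theorem det_BP (ν : Mn E) (L : List (ℂ × E)) (hL : Good L) (z : ℂ) :
    (BP ν L z).det = ν.det * (L.map fun p => blaschke p.1 z).prod := by
  unfold BP
  rw [det_mul']
  congr 1
  induction L with
  | nil =>
    simp only [List.map_nil, List.prod_nil]
    exact LinearMap.det_id
  | cons p L ih =>
    simp only [List.map_cons, List.prod_cons]
    rw [det_mul', det_factor _ _ (hL p (by simp)).2, ih (fun q hq => hL q (by simp [hq]))]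

theorem analyticAt_blaschke {lam : ℂ} (hl : ‖lam‖ < 1) {z : ℂ} (hz : ‖z‖ ≤ 1) :
    AnalyticAt ℂ (blaschke lam) z := by
  have h := den_ne_zero hl hz
  unfold blaschke
  exact (analyticAt_id.sub analyticAt_const).div (analyticAt_const.sub (analyticAt_const.mul analyticAt_id)) h

theorem order_blaschke {lam : ℂ} (hl : ‖lam‖ < 1) {z : ℂ} (hz : ‖z‖ ≤ 1) :
    analyticOrderAt (blaschke lam) z = if z = lam then 1 else 0 := by
  have hden := den_ne_zero hl hz
  split_ifs with h
  · subst h
    have h1 : blaschke z = (fun w => (1 - (starRingEnd ℂ) z * w)⁻¹) * (fun w => w - z) := by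
      funext w
      simp [blaschke, div_eq_mul_inv, mul_comm]
    have ha1 : AnalyticAt ℂ (fun w => (1 - (starRingEnd ℂ) z * w)⁻¹) z :=
      (analyticAt_const.sub (analyticAt_const.mul analyticAt_id)).inv hden
    have ha2 : AnalyticAt ℂ (fun w : ℂ => w - z) z := analyticAt_id.sub analyticAt_const
    rw [h1, analyticOrderAt_mul ha1 ha2]
    have h2 : analyticOrderAt (fun w => (1 - (starRingEnd ℂ) z * w)⁻¹) z = 0 := by
      rw [ha1.analyticOrderAt_eq_zero]
      exact inv_ne_zero hden
    have h3 : analyticOrderAt (fun w : ℂ => w - z) z = 1 := by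
      simp
    rw [h2, h3]
    rfl
  · rw [(analyticAt_blaschke hl hz).analyticOrderAt_eq_zero]
    unfold blaschke
    exact div_ne_zero (sub_ne_zero.mpr h) hden

theorem order_prod (L : List (ℂ × E)) (hL : Good L) {z : ℂ} (hz : ‖z‖ ≤ 1) :
    AnalyticAt ℂ (fun w => (L.map fun p => blaschke p.1 w).prod) z ∧
      analyticOrderAt (fun w => (L.map fun p => blaschke p.1 w).prod) z =
        ((L.map fun p => if z = p.1 then 1 else 0).sum : ℕ) := by
  induction L with
  | nil =>
    refine ⟨by simpa using analyticAt_const, ?_⟩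
    simp only [List.map_nil, List.prod_nil, List.sum_nil, Nat.cast_zero]
    rw [AnalyticAt.analyticOrderAt_eq_zero analyticAt_const]
    norm_num
  | cons p L ih =>
    obtain ⟨h1, h2⟩ := ih (fun q hq => hL q (by simp [hq]))
    have hp := (hL p (by simp)).1
    have h3 : (fun w => ((p :: L).map fun p => blaschke p.1 w).prod) =
        (blaschke p.1) * (fun w => (L.map fun p => blaschke p.1 w).prod) := by
      funext w; simp
    rw [h3]
    refine ⟨(analyticAt_blaschke hp hz).mul h1, ?_⟩
    rw [analyticOrderAt_mul (analyticAt_blaschke hp hz) h1, h2, order_blaschke hp hz]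
    simp only [List.map_cons, List.sum_cons, Nat.cast_add]
    congr 1
    split_ifs <;> simp

theorem degDet_BP (ν : Mn E) (hν : ν ∈ unitary (Mn E)) (L : List (ℂ × E)) (hL : Good L) :
    degDet (BP ν L) = L.length := by
  have hνdet : ν.det ≠ 0 := by
    have h1 : (star ν * ν).det = 1 := by
      rw [Unitary.star_mul_self_of_mem hν]
      exact LinearMap.det_id
    rw [det_mul'] at h1
    exact right_ne_zero_of_mul_eq_one h1
  have h1 : ∀ z ∈ Metric.ball (0 : ℂ) 1, analyticOrderNatAt (fun w => (BP ν L w).det) z =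
      (L.map fun p => if z = p.1 then 1 else 0).sum := by
    intro z hz
    have hz' : ‖z‖ ≤ 1 := (mem_ball_zero_iff.mp hz).le
    obtain ⟨ha, ho⟩ := order_prod L hL hz'
    have h2 : (fun w => (BP ν L w).det) = (fun _ => ν.det) * (fun w => (L.map fun p => blaschke p.1 w).prod) := by
      funext w
      rw [det_BP ν L hL]
      rfl
    rw [h2]
    unfold analyticOrderNatAt
    rw [analyticOrderAt_mul analyticAt_const ha, ho,
      (AnalyticAt.analyticOrderAt_eq_zero analyticAt_const).mpr hνdet, zero_add, ENat.toNat_natCast]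
  unfold degDet
  rw [finsum_mem_congr rfl h1]
  clear h1
  induction L with
  | nil => simp
  | cons p L ih =>
    have hp := (hL p (by simp)).1
    simp only [List.map_cons, List.sum_cons, List.length_cons]
    rw [finsum_mem_add_distrib', ih (fun q hq => hL q (by simp [hq]))]
    · rw [add_comm]
      congr 1
      have h3 : (fun z : ℂ => (if z = p.1 then 1 else 0 : ℕ)) = fun z => if p.1 = z then 1 else 0 := by
        funext z; simp [eq_comm]
      rw [finsum_mem_inter_support_eq _ _ {p.1}]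
      · simp
      · ext z
        simp only [Set.mem_inter_iff, Metric.mem_ball, dist_zero_right, Function.mem_support,
          Set.mem_singleton_iff, ne_eq, ite_eq_right_iff, one_ne_zero, imp_false, not_not]
        constructor
        · rintro ⟨_, h⟩; exact ⟨h, h⟩
        · rintro ⟨h, _⟩; exact ⟨by rw [h]; exact hp, h⟩
    · apply Set.Finite.subset (Set.finite_singleton p.1)
      rintro z ⟨_, hz⟩
      simp only [Function.mem_support, ne_eq, ite_eq_right_iff, one_ne_zero, imp_false,
        not_not] at hz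
      exact hz
    · apply Set.Finite.subset (List.finite_toSet (L.map Prod.fst))
      rintro z ⟨_, hz⟩
      by_contra hcon
      apply hz
      apply List.sum_eq_zero
      intro x hx
      simp only [List.mem_map] at hx
      obtain ⟨q, hq, rfl⟩ := hx
      rw [if_neg]
      intro hzq
      apply hcon
      simp only [Set.mem_ofPred_eq, List.mem_map]
      exact ⟨q, hq, hzq.symm⟩

/-! ### the product is inner -/

theorem isStarProjection_proj (β : E) (hβ : ‖β‖ = 1) : IsStarProjection (proj β) := by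
  have hββ : inner ℂ β β = (1 : ℂ) := by
    rw [inner_self_eq_norm_sq_to_K, hβ]; norm_num
  refine ⟨?_, ?_⟩
  · apply ContinuousLinearMap.ext
    intro x
    change proj β (proj β x) = proj β x
    rw [proj_apply, proj_apply, inner_smul_right, hββ, mul_one]
  · rw [ContinuousLinearMap.isSelfAdjoint_iff_isSymmetric]
    intro x y
    change inner ℂ (proj β x) y = inner ℂ x (proj β y)
    rw [proj_apply, proj_apply, inner_smul_left, inner_smul_right, inner_conj_symm, mul_comm]

theorem proj_ne_zero (β : E) (hβ : ‖β‖ = 1) : proj β ≠ 0 := by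
  intro h
  have h1 : proj β β = 0 := by rw [h]; rfl
  have hββ : inner ℂ β β = (1 : ℂ) := by
    rw [inner_self_eq_norm_sq_to_K, hβ]; norm_num
  rw [proj_apply, hββ, one_smul] at h1
  rw [h1, norm_zero] at hβ
  norm_num at hβ

theorem norm_blaschke {lam : ℂ} (hl : ‖lam‖ < 1) {z : ℂ} (hz : ‖z‖ = 1) : ‖blaschke lam z‖ = 1 := by
  unfold blaschke
  rw [norm_div]
  have h1 : ‖z - lam‖ = ‖1 - (starRingEnd ℂ) lam * z‖ := by
    have h2 : (1 - (starRingEnd ℂ) lam * z) = z * (starRingEnd ℂ) (z - lam) := by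
      rw [map_sub, mul_sub, Complex.mul_conj']
      rw [hz]; push_cast; ring
    rw [h2, norm_mul, hz, one_mul, RCLike.norm_conj]
  rw [h1, div_self]
  exact norm_ne_zero_iff.mpr (den_ne_zero hl hz.le)

theorem norm_factor_apply {lam : ℂ} (hl : ‖lam‖ < 1) (β : E) (hβ : ‖β‖ = 1) {z : ℂ}
    (hz : ‖z‖ = 1) (x : E) : ‖factor lam β z x‖ = ‖x‖ := by
  have hββ : inner ℂ β β = (1 : ℂ) := by
    rw [inner_self_eq_norm_sq_to_K, hβ]; norm_num
  have h1 := pyth β hβ (factor lam β z x)
  have h2 := pyth β hβ x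
  have h3 : inner ℂ β (factor lam β z x) = blaschke lam z * inner ℂ β x := by
    rw [factor_apply, inner_add_right, inner_sub_right, inner_smul_right, inner_smul_right, hββ]
    ring
  have h4 : factor lam β z x - (inner ℂ β (factor lam β z x) : ℂ) • β = x - (inner ℂ β x : ℂ) • β := by
    rw [h3, factor_apply]
    module
  rw [h4, h3, norm_mul, norm_blaschke hl hz, one_mul, ← h2] at h1
  exact (sq_eq_sq₀ (norm_nonneg _) (norm_nonneg _)).mp h1

theorem norm_BP_apply (ν : Mn E) (hν : ν ∈ unitary (Mn E)) (L : List (ℂ × E)) (hL : Good L)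
    {z : ℂ} (hz : ‖z‖ = 1) (x : E) : ‖BP ν L z x‖ = ‖x‖ := by
  have h1 : ‖BP ν L z x‖ = ‖(L.map fun p => factor p.1 p.2 z).prod x‖ := by
    have := ContinuousLinearMap.norm_map_of_mem_unitary hν ((L.map fun p => factor p.1 p.2 z).prod x)
    exact this
  rw [h1]
  clear h1
  induction L with
  | nil => simp
  | cons p L ih =>
    simp only [List.map_cons, List.prod_cons]
    change ‖factor p.1 p.2 z ((L.map fun p => factor p.1 p.2 z).prod x)‖ = ‖x‖
    rw [norm_factor_apply (hL p (by simp)).1 _ (hL p (by simp)).2 hz]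
    exact ih (fun q hq => hL q (by simp [hq]))

theorem MF_mem (lam : ℂ) (hl : ‖lam‖ < 1) (β : E) (hβ : ‖β‖ = 1) (g : L2 E) (hg : g ∈ H2 E) :
    MF lam hl β g ∈ H2 E := by
  rw [mem_H2] at hg ⊢
  set g' := MF lam hl β g with hg'
  have hrec : ∀ k : ℤ, k < 0 → inner ℂ β (coef k g') = (starRingEnd ℂ) lam * inner ℂ β (coef (k - 1) g') := by
    intro k hk
    have h1 := (coef_MF_rec lam hl β hβ g k).1
    rw [hg k hk, hg (k - 1) (by omega), inner_zero_right, mul_zero, sub_zero] at h1
    exact sub_eq_zero.mp h1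
  have hpow : ∀ (m : ℕ) (k : ℤ), k < 0 →
      inner ℂ β (coef k g') = ((starRingEnd ℂ) lam) ^ m * inner ℂ β (coef (k - m) g') := by
    intro m
    induction m with
    | zero => intro k hk; simp
    | succ m ih =>
      intro k hk
      rw [ih k hk, hrec (k - m) (by omega), pow_succ, mul_assoc,
        show k - ((m + 1 : ℕ) : ℤ) = k - (m : ℤ) - 1 by push_cast; ring]
  intro k hk
  have h0 : inner ℂ β (coef k g') = (0 : ℂ) := by
    have hlim : Tendsto (fun m : ℕ => ‖lam‖ ^ m * ‖g'‖) atTop (𝓝 0) := by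
      have := (tendsto_pow_atTop_nhds_zero_of_lt_one (norm_nonneg lam) hl).mul_const ‖g'‖
      simpa using this
    have h1 : ‖(inner ℂ β (coef k g') : ℂ)‖ ≤ 0 := by
      refine ge_of_tendsto' hlim (fun m => ?_)
      rw [hpow m k hk, norm_mul, norm_pow, RCLike.norm_conj]
      gcongr
      calc ‖(inner ℂ β (coef (k - m) g') : ℂ)‖ ≤ ‖β‖ * ‖coef (k - m) g'‖ := norm_inner_le_norm _ _
        _ ≤ 1 * ‖g'‖ := by rw [hβ]; gcongr; exact norm_fourierCoeff_le _ _
        _ = ‖g'‖ := one_mul _
    exact norm_le_zero_iff.mp h1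
  have h2 := (coef_MF_rec lam hl β hβ g k).2
  rw [← hg', h0, hg k hk, inner_zero_right, zero_smul, sub_zero, sub_zero] at h2
  exact h2

theorem mulC_BP_mem (ν : Mn E) (L : List (ℂ × E)) : ∀ (hL : Good L) (g : L2 E), g ∈ H2 E →
    mulC (fun t => BP ν L (fourier 1 t)) (continuous_BP ν L hL) g ∈ H2 E := by
  induction L using List.reverseRecOn with
  | nil =>
    intro hL g hg
    rw [mulC_congr (G := fun _ => ν) _ continuous_const (by funext t; simp [BP])]
    rw [mem_H2] at hg ⊢
    intro k hk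
    rw [coef_const, hg k hk, map_zero]
  | append_singleton L p ih =>
    intro hL g hg
    have hL' : Good L := fun q hq => hL q (by simp [hq])
    have hp := hL p (by simp)
    obtain ⟨lam, β⟩ := p
    rw [mulC_BP_append ν L hL' lam β hp.1 hp.2]
    exact ih hL' _ (MF_mem lam hp.1 β hp.2 g hg)

/-! ### matrix functions -/

theorem integrable_Linf (K : LinfM E) : Integrable (K : UnitAddCircle → Mn E) μ :=
  (Lp.memLp K).integrable (by norm_num)

theorem fourierCoeff_apply (K : LinfM E) (k : ℤ) (e : E) :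
    fourierCoeff (K : UnitAddCircle → Mn E) k e = coef k (mulOp K (mon 0 e)) := by
  rw [coef_apply]
  have h1 : (mulOp K (mon 0 e) : UnitAddCircle → E) =ᵐ[μ] fun t => K t e := by
    filter_upwards [coeFn_mulOp K (mon 0 e), coeFn_mon 0 e] with t h1 h2
    rw [h1, h2, fourier_zero, one_smul]
  rw [fourierCoeff_congr_ae h1]
  unfold fourierCoeff
  rw [ContinuousLinearMap.integral_apply ((integrable_Linf K).fourier_smul (-k))]
  rfl

theorem mem_HinfM_iff (K : LinfM E) : K ∈ HinfM E ↔
    ∀ e, ∀ k : ℤ, k < 0 → coef k (mulOp K (mon 0 e)) = 0 := by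
  constructor
  · intro h e k hk
    rw [← fourierCoeff_apply, h k hk]
    rfl
  · intro h k hk
    apply ContinuousLinearMap.ext
    intro e
    rw [fourierCoeff_apply, h e k hk]
    rfl

theorem mulOp_sub (K Ψ : LinfM E) (f : L2 E) : mulOp (K - Ψ) f = mulOp K f - mulOp Ψ f := by
  unfold mulOp
  rw [map_sub]
  rfl

theorem mulOp_mulM (K Ψ : LinfM E) (f : L2 E) : mulOp (mulM K Ψ) f = mulOp K (mulOp Ψ f) := by
  apply Lp.ext
  filter_upwards [coeFn_mulOp (mulM K Ψ) f, coeFn_mulOp K (mulOp Ψ f), coeFn_mulOp Ψ f,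
    (ContinuousLinearMap.mul ℂ (Mn E)).coeFn_holder (r := ∞) K Ψ] with t h1 h2 h3 h4
  rw [h1, h2, h3]
  have h5 : (mulM K Ψ : LinfM E) t = K t * Ψ t := h4
  rw [h5]
  rfl

/-- the element of `L^∞` given by the boundary values of `BP ν L` -/
noncomputable def bdBP (ν : Mn E) (L : List (ℂ × E)) (hL : Good L) : LinfM E :=
  toLinf (fun t => BP ν L (fourier 1 t)) (memLp_of_continuous (continuous_BP ν L hL))

theorem mulOp_bdBP (ν : Mn E) (L : List (ℂ × E)) (hL : Good L) (f : L2 E) :
    mulOp (bdBP ν L hL) f = mulC (fun t => BP ν L (fourier 1 t)) (continuous_BP ν L hL) f := rfl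

theorem norm_bdBP_le (ν : Mn E) (hν : ν ∈ unitary (Mn E)) (L : List (ℂ × E)) (hL : Good L) :
    ‖bdBP ν L hL‖ ≤ 1 := by
  have h1 := Lp.norm_le_of_ae_bound (μ := μ) (p := ∞) (f := bdBP ν L hL) (C := 1) zero_le_one (by
    filter_upwards [coeFn_toLinf (fun t => BP ν L (fourier 1 t))
      (memLp_of_continuous (continuous_BP ν L hL))] with t h1
    rw [bdBP, h1]
    apply ContinuousLinearMap.opNorm_le_bound _ zero_le_one
    intro x
    rw [norm_BP_apply ν hν L hL (norm_fourier_one t), one_mul])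
  simpa using h1

theorem final (Φ : LinfM E) (hyp : Hyponormal (toeplitz Φ))
    (hfin : FiniteDimensional ℂ (LinearMap.range (selfComm (toeplitz Φ) : H2 E →ₗ[ℂ] H2 E))) :
    ∃ B : ℂ → Mn E, IsBlaschkePotapov B ∧
      (∃ K ∈ EE Φ, K =ᵐ[μ] fun t : UnitAddCircle => B (toCircle t)) ∧
      Module.finrank ℂ (LinearMap.range (selfComm (toeplitz Φ) : H2 E →ₗ[ℂ] H2 E)) = degDet B := by
  obtain ⟨ν, L, hL, hν, hlen, hmain⟩ := exists_BP Φ hyp hfin
  refine ⟨BP ν L, ?_, ⟨bdBP ν L hL, ⟨?_, norm_bdBP_le ν hν L hL, ?_⟩, ?_⟩, ?_⟩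
  · refine ⟨ν, hν, L.map (fun p => (p.1, proj p.2)), ?_, ?_⟩
    · intro p hp
      rw [List.mem_map] at hp
      obtain ⟨q, hq, rfl⟩ := hp
      exact ⟨(hL q hq).1, isStarProjection_proj _ (hL q hq).2, proj_ne_zero _ (hL q hq).2⟩
    · intro z
      rw [List.map_map]
      rfl
  · rw [mem_HinfM_iff]
    intro e k hk
    rw [mulOp_bdBP]
    exact (mem_H2 _).mp (mulC_BP_mem ν L hL _ (mon_mem 0 le_rfl e)) k hk
  · rw [mem_HinfM_iff]
    intro e k hk
    rw [mulOp_sub, mulOp_mulM, mulOp_bdBP, map_sub, sub_eq_zero]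
    obtain ⟨j, hj⟩ : ∃ j : ℕ, k = -1 - (j : ℤ) := ⟨(-1 - k).toNat, by omega⟩
    have h1 := hmain ((shift ^ j) ⟨mon 0 e, mon_mem 0 le_rfl e⟩)
    rw [coe_shift_pow, mulOp_Z, mulOp_Z, mulC_Z, coef_Z, coef_Z] at h1
    rw [hj]
    exact h1
  · filter_upwards [coeFn_toLinf (fun t => BP ν L (fourier 1 t))
      (memLp_of_continuous (continuous_BP ν L hL))] with t h1
    rw [bdBP, h1, fourier_one]
  · rw [degDet_BP ν hν L hL, hlen]

end Pool.Agent.helper34.BT
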