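import Pool.Agent.helper34.ToeplitzDefs

set_option autoImplicit false

/-!
# Block Toeplitz operators on the circle: the notions used in the hand-in's statement

The circle is `UnitAddCircle = ℝ/ℤ` with its normalised Haar measure; the point `t` stands for
`z = toCircle t = exp (2 π i t)` on the unit circle, and `fourierCoeff f k` is the `k`-th Fourier
coefficient of `f`.  `E` is a complex Hilbert space; for `E = ℂⁿ` (`EuclideanSpace ℂ (Fin n)`), or
any `n`-dimensional `E`, these are the usual notions for `n × n` matrix-valued symbols: the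
operators `E →L[ℂ] E` are the `n × n` matrices, with the operator norm, and `star` is the conjugate
transpose.
-/

open MeasureTheory AddCircle Complex
open scoped ENNReal

namespace Pool.Agent.helper34.BTS

/-- Normalised Lebesgue measure on the circle. -/
noncomputable def μ : Measure UnitAddCircle := haarAddCircle

variable (E : Type) [NormedAddCommGroup E] [InnerProductSpace ℂ E] [CompleteSpace E]

/-- `L²_E(𝕋)`. -/
def L2 : Type := Lp E 2 μ

noncomputable instance : NormedAddCommGroup (L2 E) :=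
  Lp.instNormedAddCommGroup (E := E) (p := 2) (μ := μ)

noncomputable instance : InnerProductSpace ℂ (L2 E) :=
  MeasureTheory.L2.innerProductSpace (𝕜 := ℂ) (E := E) (μ := μ)

instance : CompleteSpace (L2 E) :=
  inferInstanceAs (CompleteSpace (Lp E 2 (haarAddCircle : Measure UnitAddCircle)))

variable {E}

/-- The function (an almost everywhere class, represented by a chosen function) underlying
`f ∈ L²_E(𝕋)`. -/
noncomputable def toFun (f : L2 E) : UnitAddCircle → E :=
  let g : Lp E 2 (haarAddCircle : Measure UnitAddCircle) := f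
  g

/-- The `k`-th Fourier coefficient of `f ∈ L²_E(𝕋)`. -/
noncomputable def coef (f : L2 E) (k : ℤ) : E := fourierCoeff (toFun f) k

theorem coef_add (f g : L2 E) (k : ℤ) : coef (f + g) k = coef f k + coef g k :=
  BT.fourierCoeff_add' f g k

theorem coef_smul (c : ℂ) (f : L2 E) (k : ℤ) : coef (c • f) k = c • coef f k :=
  BT.fourierCoeff_smul' c f k

theorem coef_zero (k : ℤ) : coef (0 : L2 E) k = 0 :=
  BT.fourierCoeff_zero' k

variable (E) in
/-- The Hardy space `H²_E` as a subspace of `L²_E(𝕋)`: the functions whose negative Fourier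
coefficients vanish. -/
def H2 : Submodule ℂ (L2 E) where
  carrier := {f | ∀ k : ℤ, k < 0 → coef f k = 0}
  add_mem' := by
    intro f g hf hg k hk
    rw [coef_add, hf k hk, hg k hk, add_zero]
  zero_mem' := fun k _ => coef_zero k
  smul_mem' := by
    intro c f hf k hk
    rw [coef_smul, hf k hk, smul_zero]

theorem norm_coef_le (f : L2 E) (k : ℤ) : ‖coef f k‖ ≤ ‖f‖ :=
  BT.norm_fourierCoeff_le f k

/-- The `k`-th Fourier coefficient as a continuous linear map on `L²_E`. -/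
noncomputable def coefL (k : ℤ) : L2 E →L[ℂ] E :=
  LinearMap.mkContinuous
    { toFun := fun f => coef f k
      map_add' := fun f g => coef_add f g k
      map_smul' := fun c f => coef_smul c f k } 1
    (fun f => by rw [one_mul]; exact norm_coef_le f k)

theorem isClosed_H2 : IsClosed (H2 E : Set (L2 E)) := by
  have : (H2 E : Set (L2 E)) = ⋂ k : {k : ℤ // k < 0}, {f | coefL k.1 f = 0} := by
    ext f
    simp only [Set.mem_iInter, Set.mem_ofPred_eq, Subtype.forall]
    rfl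
  rw [this]
  exact isClosed_iInter fun k => isClosed_eq (coefL k.1).continuous continuous_const

instance : CompleteSpace (H2 E) := (isClosed_H2 (E := E)).completeSpace_coe

variable (E) in
/-- The Hardy space `H²_E` as a Hilbert space. -/
def Hardy : Type := H2 E

noncomputable instance : NormedAddCommGroup (Hardy E) := Submodule.normedAddCommGroup (H2 E)

noncomputable instance : InnerProductSpace ℂ (Hardy E) := Submodule.innerProductSpace (H2 E)

instance : CompleteSpace (Hardy E) :=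
  inferInstanceAs (CompleteSpace (H2 E))

/-- The element of `L²_E(𝕋)` given by a square integrable function. -/
noncomputable def ofMemLp (g : UnitAddCircle → E) (hg : MemLp g 2 μ) : L2 E := hg.toLp g

theorem mulOp_ae (Φ : UnitAddCircle → (E →L[ℂ] E)) (Ψ : BT.LinfM E) (hΨ : Ψ =ᵐ[BT.μ] Φ)
    (f : BT.L2 E) : BT.mulOp Ψ f =ᵐ[BT.μ] fun t => Φ t (f t) := by
  filter_upwards [BT.coeFn_mulOp Ψ f, hΨ] with t h1 h2
  rw [h1, h2]

theorem memLp_mul (Φ : UnitAddCircle → (E →L[ℂ] E)) (hΦ : MemLp Φ ∞ μ) (f : L2 E) :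
    MemLp (fun t => Φ t (toFun f t)) 2 μ :=
  (memLp_congr_ae (mulOp_ae Φ _ hΦ.coeFn_toLp f)).1 (Lp.memLp _)

theorem ofMemLp_mul (Φ : UnitAddCircle → (E →L[ℂ] E)) (hΦ : MemLp Φ ∞ μ) (f : L2 E) :
    ofMemLp (fun t => Φ t (toFun f t)) (memLp_mul Φ hΦ f) = BT.mulOp (hΦ.toLp Φ) f := by
  have h1 := (memLp_mul Φ hΦ f).coeFn_toLp
  have h2 := mulOp_ae Φ _ hΦ.coeFn_toLp f
  exact Lp.ext (h1.trans h2.symm)

theorem mul_add_aux (Φ : UnitAddCircle → (E →L[ℂ] E)) (hΦ : MemLp Φ ∞ μ) (f g : L2 E) :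
    ofMemLp (fun t => Φ t (toFun (f + g) t)) (memLp_mul Φ hΦ (f + g)) =
      ofMemLp (fun t => Φ t (toFun f t)) (memLp_mul Φ hΦ f) +
      ofMemLp (fun t => Φ t (toFun g t)) (memLp_mul Φ hΦ g) := by
  rw [ofMemLp_mul, ofMemLp_mul, ofMemLp_mul]
  exact map_add (BT.mulOp (hΦ.toLp Φ)) f g

theorem mul_smul_aux (Φ : UnitAddCircle → (E →L[ℂ] E)) (hΦ : MemLp Φ ∞ μ) (c : ℂ) (f : L2 E) :
    ofMemLp (fun t => Φ t (toFun (c • f) t)) (memLp_mul Φ hΦ (c • f)) =
      c • ofMemLp (fun t => Φ t (toFun f t)) (memLp_mul Φ hΦ f) := by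
  rw [ofMemLp_mul, ofMemLp_mul]
  exact map_smul (BT.mulOp (hΦ.toLp Φ)) c f

theorem mul_bound_aux (Φ : UnitAddCircle → (E →L[ℂ] E)) (hΦ : MemLp Φ ∞ μ) :
    ∃ C : ℝ, ∀ f : L2 E, ‖ofMemLp (fun t => Φ t (toFun f t)) (memLp_mul Φ hΦ f)‖ ≤ C * ‖f‖ := by
  refine ⟨‖BT.mulOp (hΦ.toLp Φ)‖, fun f => ?_⟩
  rw [ofMemLp_mul]
  exact (BT.mulOp (hΦ.toLp Φ)).le_opNorm f

/-- Multiplication by the matrix function `Φ ∈ L^∞` on `L²_E`: `(mulOp Φ f) t = Φ t (f t)`. -/
noncomputable def mulOp (Φ : UnitAddCircle → (E →L[ℂ] E)) (hΦ : MemLp Φ ∞ μ) : L2 E →L[ℂ] L2 E :=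
  LinearMap.mkContinuousOfExistsBound
    { toFun := fun f => ofMemLp (fun t => Φ t (toFun f t)) (memLp_mul Φ hΦ f)
      map_add' := mul_add_aux Φ hΦ
      map_smul' := mul_smul_aux Φ hΦ } (mul_bound_aux Φ hΦ)

theorem mulOp_eq (Φ : UnitAddCircle → (E →L[ℂ] E)) (hΦ : MemLp Φ ∞ μ) :
    (mulOp Φ hΦ : BT.L2 E →L[ℂ] BT.L2 E) = BT.mulOp (hΦ.toLp Φ) :=
  ContinuousLinearMap.ext fun f => ofMemLp_mul Φ hΦ f

/-- The compression `f ↦ P (M f)` of an operator `M` to a closed subspace `S`, where `P` is the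
orthogonal projection onto `S`. -/
noncomputable def compress {X : Type} [NormedAddCommGroup X] [InnerProductSpace ℂ X]
    (S : Submodule ℂ X) [S.HasOrthogonalProjection] (M : X →L[ℂ] X) : S →L[ℂ] S :=
  S.orthogonalProjectionOnto ∘L M ∘L S.subtypeL

/-- The block Toeplitz operator `T_Φ f = P (Φ f)` on `H²_E`, where `P` is the orthogonal
projection of `L²_E` onto `H²_E`. -/
noncomputable def toeplitz (Φ : UnitAddCircle → (E →L[ℂ] E)) (hΦ : MemLp Φ ∞ μ) :
    Hardy E →L[ℂ] Hardy E :=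
  compress (H2 E) (mulOp Φ hΦ)

/-- The self-commutator `[T^*, T] = T^* T - T T^*`. -/
noncomputable def selfComm {H : Type} [NormedAddCommGroup H] [InnerProductSpace ℂ H]
    [CompleteSpace H] (T : H →L[ℂ] H) : H →L[ℂ] H :=
  star T * T - T * star T

/-- A bounded operator is hyponormal if its self-commutator is positive semidefinite. -/
def Hyponormal {H : Type} [NormedAddCommGroup H] [InnerProductSpace ℂ H]
    [CompleteSpace H] (T : H →L[ℂ] H) : Prop :=
  (selfComm T).IsPositive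

/-- `T` has finite rank: its range is finite-dimensional. -/
def FiniteRank {H : Type} [NormedAddCommGroup H] [InnerProductSpace ℂ H] (T : H →L[ℂ] H) : Prop :=
  FiniteDimensional ℂ (LinearMap.range (T : H →ₗ[ℂ] H))

/-- The rank of `T`: the dimension of its range. -/
noncomputable def rank {H : Type} [NormedAddCommGroup H] [InnerProductSpace ℂ H]
    (T : H →L[ℂ] H) : ℕ :=
  Module.finrank ℂ (LinearMap.range (T : H →ₗ[ℂ] H))

/-- `K ∈ H^∞_{M_n}`: `K` is essentially bounded and its negative Fourier coefficients vanish. -/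
def IsHinf (K : UnitAddCircle → (E →L[ℂ] E)) : Prop :=
  MemLp K ∞ μ ∧ ∀ k : ℤ, k < 0 → fourierCoeff K k = 0

/-- `𝓔(Φ) = {K ∈ H^∞_{M_n} : ‖K‖_∞ ≤ 1, Φ - K Φ^* ∈ H^∞_{M_n}}`. -/
def EE (Φ : UnitAddCircle → (E →L[ℂ] E)) : Set (UnitAddCircle → (E →L[ℂ] E)) :=
  {K | IsHinf K ∧ (∀ᵐ t ∂μ, ‖K t‖ ≤ 1) ∧ IsHinf (fun t => Φ t - K t * star (Φ t))}

/-- The Blaschke factor `b(z) = (z - α) / (1 - conj α z)`. -/
noncomputable def blaschke (α z : ℂ) : ℂ := (z - α) / (1 - (starRingEnd ℂ) α * z)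

/-- `B` is a finite Blaschke–Potapov product: `B(z) = ν ∏ (b_m(z) P_m + (I - P_m))` with `ν` a
constant unitary matrix, `b_m` Blaschke factors with zeros `α_m` in the open disc and `P_m`
nonzero orthogonal projections. The pairs `(α_m, P_m)` are the members of the list `L`. -/
def IsBlaschkePotapov (B : ℂ → (E →L[ℂ] E)) : Prop :=
  ∃ ν : E →L[ℂ] E, ν ∈ unitary (E →L[ℂ] E) ∧ ∃ L : List (ℂ × (E →L[ℂ] E)),
    (∀ p ∈ L, ‖p.1‖ < 1 ∧ IsStarProjection p.2 ∧ p.2 ≠ 0) ∧
    ∀ z, B z = ν * (L.map fun p => blaschke p.1 z • p.2 + (1 - p.2)).prod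

/-- `deg (det B)`: the number of zeros of `z ↦ det B(z)` in the open unit disc, counted with
multiplicity. -/
noncomputable def degDet (B : ℂ → (E →L[ℂ] E)) : ℕ :=
  ∑ᶠ z ∈ Metric.ball (0 : ℂ) 1, analyticOrderNatAt (fun w => (B w).det) z

end Pool.Agent.helper34.BTS
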