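import Pool.Agent.helper34.Toep5
import Pool.Agent.helper34.ToeplitzStmt

set_option autoImplicit false

open MeasureTheory AddCircle Complex
open scoped ENNReal

namespace Pool.Agent.helper34.BTS

variable {E : Type} [NormedAddCommGroup E] [InnerProductSpace ℂ E] [CompleteSpace E]
  [FiniteDimensional ℂ E]

theorem transfer (S : Submodule ℂ (BT.L2 E)) (hS : S = BT.H2 E) [CompleteSpace S]
    (Φ : BT.LinfM E) (T : S →L[ℂ] S)
    (hT : T = S.orthogonalProjectionOnto ∘L BT.mulOp Φ ∘L S.subtypeL)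
    (hyp : (star T * T - T * star T).IsPositive)
    (hfin : FiniteDimensional ℂ (LinearMap.range ((star T * T - T * star T : S →L[ℂ] S)
      : S →ₗ[ℂ] S))) :
    ∃ B : ℂ → (E →L[ℂ] E), BT.IsBlaschkePotapov B ∧
      (∃ K ∈ BT.EE Φ, K =ᵐ[BT.μ] fun t : UnitAddCircle => B (toCircle t)) ∧
      Module.finrank ℂ (LinearMap.range ((star T * T - T * star T : S →L[ℂ] S)
        : S →ₗ[ℂ] S)) = BT.degDet B := by
  subst hS
  subst hT
  exact BT.final Φ hyp hfin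

omit [FiniteDimensional ℂ E] in
theorem H2_eq : (H2 E : Submodule ℂ (BT.L2 E)) = BT.H2 E := by
  ext f
  exact (BT.mem_H2 (E := E) f).symm

omit [FiniteDimensional ℂ E] in
theorem mem_EE (Φ b : UnitAddCircle → (E →L[ℂ] E)) (Ψ K : BT.LinfM E) (hΨ : Ψ =ᵐ[BT.μ] Φ)
    (hK : K ∈ BT.EE Ψ) (hKb : K =ᵐ[BT.μ] b) : b ∈ EE Φ := by
  obtain ⟨h1, h2, h3⟩ := hK
  have hmB : MemLp b ∞ μ := (memLp_congr_ae hKb).1 (Lp.memLp K)
  have hmul : (BT.mulM K (star Ψ) : BT.LinfM E) =ᵐ[BT.μ] fun t => b t * star (Φ t) := by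
    filter_upwards [(ContinuousLinearMap.mul ℂ (BT.Mn E)).coeFn_holder (r := ∞) K
      (star Ψ), Lp.coeFn_star Ψ, hΨ, hKb] with t h1 h2 h3 h4
    have h5 : (BT.mulM K (star Ψ) : BT.LinfM E) t = K t * (star Ψ : BT.LinfM E) t := h1
    rw [h5, h2, Pi.star_apply, h3, h4]
  have hsub : (Ψ - BT.mulM K (star Ψ) : BT.LinfM E)
      =ᵐ[BT.μ] fun t => Φ t - b t * star (Φ t) := by
    filter_upwards [Lp.coeFn_sub Ψ (BT.mulM K (star Ψ)), hΨ, hmul] with t h1 h2 h3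
    rw [h1, Pi.sub_apply, h2, h3]
  refine ⟨⟨hmB, ?_⟩, ?_, ⟨?_, ?_⟩⟩
  · intro k hk
    have := h1 k hk
    rwa [fourierCoeff_congr_ae hKb] at this
  · have hb : ∀ᵐ t ∂BT.μ, ‖K t‖ₑ ≤ eLpNorm K ∞ BT.μ := ae_le_eLpNormEssSup
    filter_upwards [hb, hKb] with t ht1 ht2
    rw [← ht2]
    refine le_trans ?_ h2
    rw [Lp.norm_def, ← toReal_enorm]
    exact ENNReal.toReal_mono (Lp.eLpNorm_ne_top K) ht1
  · exact (memLp_congr_ae hsub).1 (Lp.memLp _)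
  · intro k hk
    have := h3 k hk
    rwa [fourierCoeff_congr_ae hsub] at this

omit [FiniteDimensional ℂ E] in
theorem toeplitz_eq (Φ : UnitAddCircle → (E →L[ℂ] E)) (hΦ : MemLp Φ ∞ μ) :
    (toeplitz Φ hΦ : H2 E →L[ℂ] H2 E) =
      (H2 E).orthogonalProjectionOnto ∘L
        (BT.mulOp (hΦ.toLp Φ) : L2 E →L[ℂ] L2 E) ∘L (H2 E).subtypeL :=
  congrArg (fun M : L2 E →L[ℂ] L2 E => (H2 E).orthogonalProjectionOnto ∘L M ∘L (H2 E).subtypeL)
    (mulOp_eq Φ hΦ)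

theorem final (Φ : UnitAddCircle → (E →L[ℂ] E)) (hΦ : MemLp Φ ∞ μ)
    (hyp : Hyponormal (toeplitz Φ hΦ))
    (hfin : FiniteRank (selfComm (toeplitz Φ hΦ))) :
    ∃ B : ℂ → (E →L[ℂ] E), IsBlaschkePotapov B ∧
      (fun t : UnitAddCircle => B (toCircle t)) ∈ EE Φ ∧
      rank (selfComm (toeplitz Φ hΦ)) = degDet B := by
  have hcomp : CompleteSpace (H2 E) := inferInstance
  obtain ⟨B, hB, ⟨K, hK, hKB⟩, hd⟩ := @transfer E _ _ _ _ (H2 E) H2_eq hcomp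
    (hΦ.toLp Φ : BT.LinfM E) (toeplitz Φ hΦ) (toeplitz_eq Φ hΦ) hyp hfin
  exact ⟨B, hB, mem_EE Φ _ _ K hΦ.coeFn_toLp hK hKB, hd⟩

end Pool.Agent.helper34.BTS
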