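import Mathlib

set_option autoImplicit false
set_option linter.unusedSectionVars false

/-!
# Block Toeplitz operators on the circle: definitions

The circle is `UnitAddCircle = ℝ/ℤ` with its normalised Haar measure; the point `t` stands for
`z = toCircle t = exp (2 π i t)` on the unit circle, and `fourierCoeff f k` is the `k`-th Fourier
coefficient of `f`.  `E` is a complex Hilbert space; for `E = ℂⁿ` (`EuclideanSpace ℂ (Fin n)`), or
any `n`-dimensional `E`, these are the usual notions for `n × n` matrix-valued symbols.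
-/

open MeasureTheory AddCircle Complex
open scoped ENNReal

namespace Pool.Agent.helper34.BT

variable (E : Type*) [NormedAddCommGroup E] [InnerProductSpace ℂ E] [CompleteSpace E]

/-- The bounded operators on `E`: for `E = ℂⁿ` the `n × n` complex matrices. The norm is the
operator norm and `star` is the adjoint (the conjugate transpose). -/
abbrev Mn := E →L[ℂ] E

/-- Normalised Lebesgue measure on the circle. -/
noncomputable abbrev μ : Measure UnitAddCircle := haarAddCircle

/-- `L²_E(𝕋)`. -/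
noncomputable abbrev L2 := Lp E 2 μ

/-- `L^∞_{M_n}(𝕋)`: essentially bounded matrix functions, the norm is the essential supremum of
the operator norm. -/
noncomputable abbrev LinfM := Lp (E →L[ℂ] E) ∞ μ

variable {E}

theorem integrable_L2 (f : L2 E) : Integrable (f : UnitAddCircle → E) μ :=
  (Lp.memLp f).integrable (by norm_num)

theorem fourierCoeff_add' (f g : L2 E) (k : ℤ) :
    fourierCoeff ((f + g : L2 E) : UnitAddCircle → E) k =
      fourierCoeff (f : UnitAddCircle → E) k + fourierCoeff (g : UnitAddCircle → E) k := by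
  rw [fourierCoeff_congr_ae (Lp.coeFn_add f g), fourierCoeff.add (integrable_L2 f) (integrable_L2 g)]
  rfl

theorem fourierCoeff_smul' (c : ℂ) (f : L2 E) (k : ℤ) :
    fourierCoeff ((c • f : L2 E) : UnitAddCircle → E) k =
      c • fourierCoeff (f : UnitAddCircle → E) k := by
  rw [fourierCoeff_congr_ae (Lp.coeFn_smul c f), fourierCoeff.const_smul]

theorem fourierCoeff_zero' (k : ℤ) :
    fourierCoeff ((0 : L2 E) : UnitAddCircle → E) k = 0 := by
  have := fourierCoeff_smul' (E := E) 0 0 k
  simpa using this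

theorem norm_fourierCoeff_le (f : L2 E) (k : ℤ) :
    ‖fourierCoeff (f : UnitAddCircle → E) k‖ ≤ ‖f‖ := by
  unfold fourierCoeff
  refine (norm_integral_le_integral_norm _).trans ?_
  have h1 : (fun t : UnitAddCircle => ‖fourier (-k) t • f t‖) = fun t => ‖f t‖ := by
    funext t
    rw [norm_smul, fourier_apply, Circle.norm_coe, one_mul]
  rw [h1]
  have h2 : ∫ t, ‖f t‖ ∂μ = (eLpNorm f 1 μ).toReal := by
    rw [eLpNorm_one_eq_lintegral_enorm, integral_norm_eq_lintegral_enorm
      (Lp.aestronglyMeasurable f)]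
  rw [h2, Lp.norm_def]
  refine ENNReal.toReal_mono (Lp.eLpNorm_ne_top f) ?_
  exact eLpNorm_le_eLpNorm_of_exponent_le (by norm_num) (Lp.aestronglyMeasurable f)

/-- The `k`-th Fourier coefficient as a continuous linear map on `L²_E`. -/
noncomputable def coef (k : ℤ) : L2 E →L[ℂ] E :=
  LinearMap.mkContinuous
    { toFun := fun f => fourierCoeff (f : UnitAddCircle → E) k
      map_add' := fun f g => fourierCoeff_add' f g k
      map_smul' := fun c f => fourierCoeff_smul' c f k } 1
    (fun f => by rw [one_mul]; exact norm_fourierCoeff_le f k)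

theorem coef_apply (k : ℤ) (f : L2 E) : coef k f = fourierCoeff (f : UnitAddCircle → E) k := rfl

variable (E) in
/-- The Hardy space `H²_E`: the functions in `L²_E(𝕋)` whose negative Fourier coefficients
vanish. -/
noncomputable def H2 : Submodule ℂ (L2 E) := ⨅ k : {k : ℤ // k < 0}, (coef k.1).ker

theorem mem_H2 (f : L2 E) : f ∈ H2 E ↔ ∀ k : ℤ, k < 0 → coef k f = 0 := by
  simp [H2, Submodule.mem_iInf]

theorem isClosed_H2 : IsClosed (H2 E : Set (L2 E)) := by
  have : (H2 E : Set (L2 E)) = ⋂ k : {k : ℤ // k < 0}, {f | coef k.1 f = 0} := by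
    ext f
    simp only [SetLike.mem_coe, mem_H2, Set.mem_iInter, Set.mem_ofPred_eq, Subtype.forall]
  rw [this]
  exact isClosed_iInter fun k => isClosed_eq (coef k.1).continuous continuous_const

instance : CompleteSpace (H2 E) := (isClosed_H2 (E := E)).completeSpace_coe

/-- Multiplication by the matrix function `Φ` on `L²_E`: `(mulOp Φ f) t = Φ t (f t)`. -/
noncomputable def mulOp (Φ : LinfM E) : L2 E →L[ℂ] L2 E :=
  (ContinuousLinearMap.id ℂ (E →L[ℂ] E)).holderL μ ∞ 2 2 Φ

theorem coeFn_mulOp (Φ : LinfM E) (f : L2 E) : mulOp Φ f =ᵐ[μ] fun t => Φ t (f t) :=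
  (ContinuousLinearMap.id ℂ (E →L[ℂ] E)).coeFn_holder Φ f

/-- The block Toeplitz operator `T_Φ f = P (Φ f)` on `H²_E`, where `P` is the orthogonal
projection of `L²_E` onto `H²_E`. -/
noncomputable def toeplitz (Φ : LinfM E) : H2 E →L[ℂ] H2 E :=
  (H2 E).orthogonalProjectionOnto ∘L mulOp Φ ∘L (H2 E).subtypeL

/-- The self-commutator `[T^*, T] = T^* T - T T^*`. -/
noncomputable def selfComm {H : Type*} [NormedAddCommGroup H] [InnerProductSpace ℂ H]
    [CompleteSpace H] (T : H →L[ℂ] H) : H →L[ℂ] H :=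
  ContinuousLinearMap.adjoint T ∘L T - T ∘L ContinuousLinearMap.adjoint T

/-- A bounded operator is hyponormal if its self-commutator is positive semidefinite. -/
def Hyponormal {H : Type*} [NormedAddCommGroup H] [InnerProductSpace ℂ H]
    [CompleteSpace H] (T : H →L[ℂ] H) : Prop :=
  (selfComm T).IsPositive

variable (E) in
/-- `H^∞_{M_n}`: the matrix functions in `L^∞_{M_n}` whose negative Fourier coefficients vanish. -/
def HinfM : Set (LinfM E) :=
  {K | ∀ k : ℤ, k < 0 → fourierCoeff (K : UnitAddCircle → (E →L[ℂ] E)) k = 0}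

/-- The pointwise product of two bounded matrix functions. -/
noncomputable def mulM (K Ψ : LinfM E) : LinfM E :=
  (ContinuousLinearMap.mul ℂ (E →L[ℂ] E)).holder ∞ K Ψ

/-- `𝓔(Φ) = {K ∈ H^∞_{M_n} : ‖K‖_∞ ≤ 1, Φ - K Φ^* ∈ H^∞_{M_n}}`. -/
def EE (Φ : LinfM E) : Set (LinfM E) :=
  {K | K ∈ HinfM E ∧ ‖K‖ ≤ 1 ∧ Φ - mulM K (star Φ) ∈ HinfM E}

/-- The Blaschke factor `b(z) = (z - α) / (1 - conj α z)`. -/
noncomputable def blaschke (α z : ℂ) : ℂ := (z - α) / (1 - (starRingEnd ℂ) α * z)

/-- `B` is a finite Blaschke–Potapov product: `B(z) = ν ∏ (b_m(z) P_m + (I - P_m))` with `ν` a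
constant unitary matrix, `b_m` Blaschke factors with zeros `α_m` in the open disc and `P_m`
nonzero orthogonal projections. The pairs `(α_m, P_m)` are the members of the list `L`. -/
def IsBlaschkePotapov (B : ℂ → (E →L[ℂ] E)) : Prop :=
  ∃ ν : E →L[ℂ] E, ν ∈ unitary (E →L[ℂ] E) ∧ ∃ L : List (ℂ × (E →L[ℂ] E)),
    (∀ p ∈ L, ‖p.1‖ < 1 ∧ IsStarProjection p.2 ∧ p.2 ≠ 0) ∧
    ∀ z, B z = ν * (L.map fun p => blaschke p.1 z • p.2 + (1 - p.2)).prod

/-- `deg (det B)`: the number of zeros of `z ↦ det B(z)` in the open unit disc, counted with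
multiplicity. -/
noncomputable def degDet (B : ℂ → (E →L[ℂ] E)) : ℕ :=
  ∑ᶠ z ∈ Metric.ball (0 : ℂ) 1, analyticOrderNatAt (fun w => (B w).det) z

end Pool.Agent.helper34.BT
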